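import Pool.Agent.Helper10.CB.H1

/-!
# Project AA (MP_6c0525_nt): for almost all n many C(2k,k) + p_(n-k) without prime factors up to N^c

`h_k = C(2k,k)` (`Nat.centralBinom k`), `P m` the `m`-th prime (Helper10.CB).  Parameters: `w` (tends to infinity), `Q = w^20`, `S = w^6`,
`G = w^2`, `z` a small power of `N`, `D = z^E`.

Useful: `Pool.Agent.Helper10.CB.ND, mem_ND, digit_lt, div_not_dvd, card_ND_le, card_ND_exp, two_thirds_pow, log_ge_one, pr3, T,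
tt, sum_exp_T, P_prime, P_ge, P_strictMono, P_mono, P_le, cb_le, prime_dvd_cb, exp_Sz_up` (`Pool/Agent/Helper10/CB/*.lean`),
`Pool.Agent.Helper90.Twin.Ps, mem_Ps, Sz`, `Pool.Agent.Helper94.Tot.allSz`, `Pool.Agent.Helper31.LG.mertens`, `Pool.Agent.Helper69.LG.me`.
-/

set_option autoImplicit false

open Finset

open scoped Classical

namespace Pool.Agent.Helper48.AA

open Pool.Agent.Helper10.CB (P)

/-- the primes of `(Q, z]` which do not divide `C(2k,k)` -/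
noncomputable def PK (Q z k : ℕ) : Finset ℕ :=
  (Ioc Q z).filter (fun q => q.Prime ∧ ¬ q ∣ Nat.centralBinom k)

theorem mem_PK {Q z k q : ℕ} : q ∈ PK Q z k ↔ (Q < q ∧ q ≤ z) ∧ q.Prime ∧ ¬ q ∣ Nat.centralBinom k := by
  unfold PK
  rw [mem_filter, mem_Ioc]

/-- weights bounded by `2`, supported on the divisors `d ≤ D` of the product of the primes of `P` -/
def Wt (D : ℕ) (P : Finset ℕ) (la : ℕ → ℝ) : Prop :=
  (∀ d, |la d| ≤ 2) ∧ ∀ d, la d ≠ 0 → d ∣ ∏ p ∈ P, p ∧ d ≤ D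

/-- `∑ la(d) (1[d ∣ x + a] - 1/d)` -/
noncomputable def Fx (D : ℕ) (la : ℕ → ℝ) (a x : ℕ) : ℝ :=
  ∑ d ∈ Icc 1 D, la d * ((if d ∣ x + a then 1 else 0) - 1 / (d : ℝ))

/-- `∑ F_(k+j)(x) F_k(y)` over the `k` with `k, k + j ∈ KK` -/
noncomputable def cc (KK : Finset ℕ) (F : ℕ → ℕ → ℝ) (j x y : ℕ) : ℝ :=
  ∑ k ∈ KK.filter (fun k => k + j ∈ KK), F (k + j) x * F k y

/-- `∑_(i < w) F_(t-i)(p_(M+i))`, over the `i` with `t - i ∈ KK` -/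
noncomputable def GM (KK : Finset ℕ) (F : ℕ → ℕ → ℝ) (w M t : ℕ) : ℝ :=
  ∑ i ∈ range w, if i ≤ t ∧ t - i ∈ KK then F (t - i) (P (M + i)) else 0

/-- `d` runs over the `r`-tuples of divisors of the product of the primes of `P` -/
noncomputable def Tp (r : ℕ) (P : Finset ℕ) : Finset (Fin r → ℕ) :=
  Fintype.piFinset (fun _ : Fin r => (∏ p ∈ P, p).divisors)

/-- PACKET WT (weights; from `Pool.Agent.Helper67.CR.fw Pool.Agent.Helper11.CR.f0 : CR.StmtFW`).  Captain.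
`la = l - l'`, `b` with `C e^(-b) ≤ 1/2`. -/
def StmtWT : Prop := ∃ E : ℕ, 1 ≤ E ∧ ∀ Q z k : ℕ, 1 ≤ z → ∃ la : ℕ → ℝ,
  Wt (z ^ E) (PK Q z k) la ∧
  (∀ n : ℕ, 1 ≤ n → ∑ d ∈ n.divisors, la d ≤ if ∀ p ∈ PK Q z k, ¬ p ∣ n then 1 else 0) ∧
  1 / 2 * ∏ p ∈ PK Q z k, (1 - 1 / (p : ℝ)) ≤ ∑ d ∈ Icc 1 (z ^ E), la d / d

/-- PACKET MA (coprime tuples).  Expand the product over `i ≠ 0` (`Finset.prod_add` or by hand, `Fin.prod_univ_four`): a sum over the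
subsets `U` of `{1, 2, 3}` of `∏_(i ∉ U) (-1/d_i)` times `∑_(x ∈ A, 1 ≤ x ≤ X) (1[d_0 ∣ x + a_0] - 1/d_0)`, where `A = {x | ∀ i ∈ U, d_i
∣ x + a_i}` is empty or one residue class modulo `m = lcm (d_i, i ∈ U)`, which is prime to `d_0`.  The number of `x ∈ A` in `Icc 1 X`
is `X/m + θ`, `|θ| ≤ 1`, and the number of those with `d_0 ∣ x + a_0` is `X/(d_0 m) + θ'`, `|θ'| ≤ 1` (one class modulo `d_0 m`:
Chinese remainder theorem).  So each of the `8` terms is at most `2`. -/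
def StmtMA : Prop := ∀ (d a : Fin 4 → ℕ) (X : ℕ), (∀ i, 1 ≤ d i) →
  (∀ i, i ≠ 0 → Nat.Coprime (d 0) (d i)) →
  |∑ x ∈ Icc 1 X, ∏ i, ((if d i ∣ x + a i then (1 : ℝ) else 0) - 1 / (d i : ℝ))| ≤ 16

/-- PACKET MB1 (tuples with a common prime).  `Finset.prod_add`: a sum over the subsets `U` of the indices of
`(∏_(j ∉ U) 1/d_j) #{x ∈ Icc 1 X : ∀ j ∈ U, d_j ∣ x + a_j}`, and this number is at most `X/m_U + 1 ≤ 2 X/m_U`, `m_U = lcm (d_j, j ∈ U)`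
(it is empty or one class modulo `m_U`; `m_U ≤ ∏ d_j ≤ X`).  If `0 ∉ U`: let `M = m_U ∏_(j ∉ U, j ≠ 0) d_j`; it is a multiple of `d_i`, so
`q ∣ gcd (d_0, M)`, and `lcm d ∣ lcm (d_0, M) ≤ d_0 M/q`, so the term is at most `2 X/(q lcm d)`.  If `0 ∈ U`, `i ∉ U`: the same with `d_i`
in place of `d_0`.  If `0, i ∈ U` and some `x` satisfies the conditions then `q ∣ x + a_0`, `q ∣ x + a_i`, so `a_0 ≡ a_i (q)`, and the term
is at most `2 X/(m_U ∏_(j ∉ U) d_j) ≤ 2 X/lcm d`.  There are `16` subsets. -/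
def StmtMB1 : Prop := ∀ (d a : Fin 4 → ℕ) (X q : ℕ) (i : Fin 4), q.Prime → (∀ j, 1 ≤ d j) →
  ∏ j, d j ≤ X → i ≠ 0 → q ∣ d 0 → q ∣ d i →
  ∑ x ∈ Icc 1 X, ∏ j, ((if d j ∣ x + a j then (1 : ℝ) else 0) + 1 / (d j : ℝ))
    ≤ 32 * X / ((univ.lcm d : ℕ) : ℝ) * (1 / q + if a 0 ≡ a i [MOD q] then 1 else 0)

/-- PACKET MB2 (any number of moduli).  `Finset.prod_add`: a sum over the subsets `U` of the indices of
`(∏_(j ∉ U) 1/d_j) #{x ∈ Icc 1 X : ∀ j ∈ U, d_j ∣ x + a_j}`, and this number is at most `X/m_U + 1 ≤ 2 X/m_U`, `m_U = lcm (d_j, j ∈ U)`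
(it is empty or one class modulo `m_U`; `m_U ≤ ∏ d_j ≤ X`); `lcm d ≤ m_U ∏_(j ∉ U) d_j`.  There are `2^r` subsets. -/
def StmtMB2 : Prop := ∀ (r : ℕ) (d a : Fin r → ℕ) (X : ℕ), (∀ j, 1 ≤ d j) → ∏ j, d j ≤ X →
  ∑ x ∈ Icc 1 X, ∏ j, ((if d j ∣ x + a j then (1 : ℝ) else 0) + 1 / (d j : ℝ))
    ≤ 2 ^ (r + 1) * X / ((univ.lcm d : ℕ) : ℝ)

/-- PACKET LS (sums of `1/lcm`).  Group the tuples by `m = lcm d`, a divisor of the squarefree `Π = ∏ p`: all `d_i` divide `m`, so there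
are at most `τ(m)^r = 2^(r ω(m))` tuples for `m`.  `∑_(m ∣ Π) 2^(r ω(m))/m = ∏_(p ∈ P) (1 + 2^r/p)` (`m` corresponds to a subset of
`P`: `Finset.prod_add_one`/`Finset.prod_one_add`, or by induction on `P`); the part with `q ∣ m` is `(2^r/q) ∏_(p ≠ q) (1 + 2^r/p)`. -/
def StmtLS : Prop := ∀ (r : ℕ) (P : Finset ℕ), (∀ p ∈ P, p.Prime) →
  (∑ d ∈ Tp r P, 1 / ((univ.lcm d : ℕ) : ℝ) ≤ ∏ p ∈ P, (1 + 2 ^ r / (p : ℝ))) ∧
  ∀ q ∈ P, ∑ d ∈ (Tp r P).filter (fun d => q ∣ univ.lcm d), 1 / ((univ.lcm d : ℕ) : ℝ)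
    ≤ 2 ^ r / q * ∏ p ∈ P, (1 + 2 ^ r / (p : ℝ))

/-- PACKET LZ (Mertens).  Captain.  `1 + a/p ≤ exp (a/p)`, `∑_(p ≤ z) 1/p ≤ log log z + C` (`exp_Sz_up`). -/
def StmtLZ : Prop := ∀ r : ℕ, ∃ C : ℝ, 1 ≤ C ∧ ∀ z : ℕ, 3 ≤ z → ∀ P : Finset ℕ,
  (∀ p ∈ P, p.Prime ∧ p ≤ z) → ∏ p ∈ P, (1 + 2 ^ r / (p : ℝ)) ≤ C * Real.log z ^ (2 ^ r)

/-- PACKET ML (the fourth correlations; from MA, MB1, LS, LZ).  Expand (`Finset.prod_univ_sum` or by hand): the sum over the tuples `d` in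
`(Icc 1 D)^4` of `∏ la_i(d_i)` times `A(d) = ∑_x ∏ (1[..] - 1/d_i)`; only tuples with `d_i ∣ ∏_(p ∈ P_i) p`, `d_i ≤ D` matter.  If `d_0` is
prime to the other `d_i`: `|A(d)| ≤ 16` (MA), at most `D^4` tuples, weights at most `16`.  Otherwise some prime `q` divides `d_0` and
some `d_i`, `i ≠ 0`; `q ∈ P_0 ∩ P_i`; `|A(d)| ≤ ∑_x ∏ (1[..] + 1/d_j)`, MB1 (`∏ d_j ≤ D^4 ≤ X`); sum over all `i ≠ 0`, `q ∈ P_0 ∩ P_i` and
all tuples in `Tp 4 Pz` with `q ∣ lcm d`, `Pz` the union of the `P_i`: LS and LZ with `r = 4` give `(16/q) C (log z)^16`. -/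
def StmtML : Prop := ∃ C : ℝ, 0 < C ∧ ∀ (z D X : ℕ) (P : Fin 4 → Finset ℕ) (la : Fin 4 → ℕ → ℝ)
  (a : Fin 4 → ℕ), 3 ≤ z → D ^ 4 ≤ X → (∀ i, ∀ p ∈ P i, p.Prime ∧ p ≤ z) →
  (∀ i, Wt D (P i) (la i)) →
  |∑ x ∈ Icc 1 X, ∏ i, Fx D (la i) (a i) x|
    ≤ C * X * Real.log z ^ 16 * (∑ i ∈ ({1, 2, 3} : Finset (Fin 4)), ∑ q ∈ P 0 ∩ P i,
        1 / (q : ℝ) * (1 / q + if a 0 ≡ a i [MOD q] then 1 else 0)) + C * D ^ 4

/-- PACKET DG (the second moment; from MB2, LS, LZ).  `|Fx| ≤ 2 ∑ (1[d ∣ x + a] + 1/d)` over the `d ≤ D`, `d ∣ ∏_(p ∈ P) p`; square, sum over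
`x`, MB2 with `r = 2` and LS, LZ with `r = 2`. -/
def StmtDG : Prop := ∃ C : ℝ, 0 < C ∧ ∀ (z D X : ℕ) (P : Finset ℕ) (la : ℕ → ℝ) (a : ℕ),
  3 ≤ z → D ^ 2 ≤ X → (∀ p ∈ P, p.Prime ∧ p ≤ z) → Wt D P la →
  ∑ x ∈ Icc 1 X, (Fx D la a x) ^ 2 ≤ C * X * Real.log z ^ 4

/-- PACKET RLA (few `a < q/2` with a given value of `C(2a,a)` modulo `q`).
Let `A_s = ∏_(i=1..s) (4X + 4i - 2)`, `B_s = ∏_(i=1..s) (X + i)` in `(ZMod q)[X]`: `h_(a+s) B_s(a) = h_a A_s(a)` in `ZMod q`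
(`Nat.succ_mul_centralBinom_succ`, induction).  Let `U` be the set of solutions `a < len`.  An element of `U` either has another element
`a + s ∈ U`, `1 ≤ s < S`, or not; the latter ones are `S`-separated, so `a ↦ a/S` is injective on them and there are at most `len/S + 1`.
If `h_a = h_(a+s) = b ≠ 0` in `ZMod q`, then `a` is a root of `A_s - B_s`, of degree `≤ s`, not `0` since at `X = -1/2` the value is
`0 - ∏ (i - 1/2) = -∏ (2i - 1)/2^s ≠ 0` (`2s - 1 < q`); at most `s` roots for each `s`, total at most `S^2`.  (`a ↦ (a : ZMod q)` is injective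
on `a < len ≤ q`.) -/
def StmtRLA : Prop := ∀ q S len b : ℕ, q.Prime → 1 ≤ S → 2 * S ≤ q → 2 * len ≤ q + 1 → ¬ q ∣ b →
  ((range len).filter (fun a => Nat.centralBinom a ≡ b [MOD q])).card ≤ len / S + 1 + S ^ 2

/-- PACKET RLB (few `a < q/2` with a given value of `C(2(a+j),a+j) - C(2a,a)` modulo `q`).
`A_s = ∏_(i=1..s) (4X + 4i - 2)`, `B_s = ∏_(i=1..s) (X + i)` in `(ZMod q)[X]`: `h_(a+s) B_s(a) = h_a A_s(a)` in `ZMod q`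
(`Nat.succ_mul_centralBinom_succ`, induction).  Let `U` be the set of solutions `a < len`; the elements of `U` without another element
`a + s ∈ U`, `1 ≤ s < S`, are `S`-separated, so `a ↦ a/S` is injective on them and there are at most `len/S + 1`.
`u ≠ 0` in `ZMod q` (otherwise `q ∣ g`).  With `c = g/u ≠ 0`: `h_a (A_j(a) - B_j(a)) = c B_j(a)` for all solutions `a` (`B_j(a) ≠ 0`
as `a + j < q`).  For solutions `a, a + s` this gives, with `h_(a+s) B_s(a) = h_a A_s(a)`, that `a` is a root of `B_j(X) A_s(X) (A_j(X + s) -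
B_j(X + s)) - (A_j(X) - B_j(X)) B_j(X + s) B_s(X)`, of degree `≤ 2j + s`, with the value `B_j(-1/2) B_j(s - 1/2) B_s(-1/2) ≠ 0` at `-1/2`
(`A_j(-1/2) = A_s(-1/2) = 0`, products of `odd/2`, `odd < 2(s + j) ≤ q`).  At most `2j + s` roots for each `s`; total at most
`S^2 + 2 j S`.  (`a ↦ (a : ZMod q)` is injective on `2a < q`.) -/
def StmtRLB : Prop := ∀ q S len j u g : ℕ, q.Prime → 1 ≤ S → 1 ≤ j → 2 * (S + j) ≤ q → ¬ q ∣ g →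
  ((range len).filter (fun a => 2 * (a + j) < q ∧
    u * Nat.centralBinom (a + j) ≡ u * Nat.centralBinom a + g [MOD q])).card
    ≤ len / S + 1 + S ^ 2 + 2 * j * S

/-- PACKET RGA (from RLA).  `S = 1`: trivial.  Let `S ≥ 2`, so `4 S ≤ q`.
If `q ∤ h_k` then `2 (k % q) < q` (`digit_lt`), `q ∤ h_(k/q)` (`div_not_dvd`), and `h_k ≡ h_(k/q) h_(k % q) (q)`
(`Choose.choose_modEq_choose_mod_mul_choose_div_nat`, see `Pool/Agent/Helper10/CB/Dig.lean`).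
If `q ≤ K`: `k' = k/q ≤ K/q`, and for each `k'` with `q ∤ h_k'` RLA with `len = (q + 1)/2` for `a = k % q` (`b` is replaced by `b'` with
`h_k' b' ≡ b`; no `k` if `q ∣ b`): at most `3 q/S` for each `k'`, `K/q + 1 ≤ 2K/q` values of `k'`.  If `q > K`: `k = k % q`, RLA with
`len = min K ((q + 1)/2)`: at most `K/S + 1 + S^2 ≤ 3 K/S`. -/
def StmtRGA : Prop := ∀ q S K b : ℕ, q.Prime → 1 ≤ S → S ^ 3 ≤ q → S ^ 3 ≤ K →
  ((range K).filter (fun k => ¬ q ∣ Nat.centralBinom k ∧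
    Nat.centralBinom k ≡ b [MOD q])).card * S ≤ 16 * K

/-- PACKET RGB (from RLB).  `S = 1`: trivial.  Let `S ≥ 2`, so `4 S ≤ q`.
If `q ∤ h_k` then `2 (k % q) < q` (`digit_lt`), `q ∤ h_(k/q)` (`div_not_dvd`), and `h_k ≡ h_(k/q) h_(k % q) (q)`
(`Choose.choose_modEq_choose_mod_mul_choose_div_nat`, see `Pool/Agent/Helper10/CB/Dig.lean`).  `(k + j)/q = k/q`, `(k + j) % q = k % q + j`
because `2 (k % q) < q`, `2j ≤ 2S < q`; so `2 (k % q + j) < q`, `h_(k+j) ≡ h_(k/q) h_(k % q + j)`.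
If `q ≤ K`: `k' = k/q ≤ K/q`, for each `k'` RLB with `len = (q + 1)/2`, `u = h_k'` for `a = k % q`: at most `q/S + 1 + 3 S^2 ≤ 5 q/S` for each `k'`,
`K/q + 1 ≤ 2K/q` values of `k'`.  If `q > K`: `k = k % q`, RLB with `len = K`, `u = 1`: at most `K/S + 1 + 3 S^2 ≤ 5 K/S`. -/
def StmtRGB : Prop := ∀ q S K j g : ℕ, q.Prime → 1 ≤ S → S ^ 3 ≤ q → S ^ 3 ≤ K → 1 ≤ j → j ≤ S →
  ¬ q ∣ g →
  ((range K).filter (fun k => ¬ q ∣ Nat.centralBinom k ∧ ¬ q ∣ Nat.centralBinom (k + j) ∧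
    Nat.centralBinom (k + j) ≡ Nat.centralBinom k + g [MOD q])).card * S ≤ 16 * K

/-- PACKET CC (from ML, RGA, RGB).  `F k x = Fx D (la k) h_k x`.  Expand the square: `∑_(k1, k2) ∑_g ∑_x F_(k1+j)(x) F_(k1)(x+g) F_(k2+j)(x)
F_(k2)(x+g)`, `k1, k2` with `k, k + j ∈ KK`, and `F_k(x + g) = Fx D (la k) (g + h_k) x`.  ML with `P_0 = PK (k1 + j)`, `a_0 = h_(k1+j)`,
`P_1 = PK k1`, `a_1 = g + h_k1`, `P_2 = PK (k2 + j)`, `a_2 = h_(k2+j)`, `P_3 = PK k2`, `a_3 = g + h_k2`.  All primes are `> w^20`, `∑ 1/q^2 ≤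
1/w^20`.  The terms `(1/q) [a_0 ≡ a_i (q)]`: `i = 1`: sum over `k1` by RGB (`g ≤ w^2 < q`, so `q ∤ g`; `S = w^6`, `S^3 = w^18 ≤ q, K + 1`);
`i = 2`: sum over `k2` by RGA for `k2 + j` with `b = h_(k1+j)`; `i = 3`: sum over `k2` by RGA with `b ≡ h_(k1+j) - g`.  Each time at most
`16 (K + 1)/w^6 ≤ 32 K/w^6` (all `k ≤ K`: `range (K + 1)`), and `∑_(q ≤ z) 1/q ≤ 1 + log z`.  The terms `C D^4 ≤ C X/w^6`. -/
def StmtCC : Prop := ∃ C : ℝ, 0 < C ∧ ∀ (w z K D X j : ℕ) (KK : Finset ℕ) (la : ℕ → ℕ → ℝ),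
  2 ≤ w → w ^ 20 ≤ z → w ^ 20 ≤ K → D ^ 4 * w ^ 6 ≤ X → KK ⊆ Icc 1 K →
  (∀ k ∈ KK, Wt D (PK (w ^ 20) z k) (la k)) → 1 ≤ j → j < w →
  ∑ x ∈ Icc 1 X, ∑ g ∈ Icc 1 (w ^ 2),
      (cc KK (fun k x => Fx D (la k) (Nat.centralBinom k) x) j x (x + g)) ^ 2
    ≤ C * K ^ 2 * X * w ^ 2 * Real.log z ^ 17 / w ^ 6

/-- PACKET WN (windows).  Expand the square of `GM`: pairs `(i, i')`.  For fixed `M`, `i < i'`, `j = i' - i`, `x = p_(M+i)`, `y = p_(M+i')`: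
the sum over `t` of `F_(t-i)(x) F_(t-i')(y)` (with both `t - i, t - i' ∈ KK`) is `cc KK F j x y` (`k = t - i'`, `k + j = t - i`; all these `t`
are `< K + w`).  For `i = i'` it is at most `∑_(k ∈ KK) F_k(x)^2`.  For fixed `i, j` the map `M ↦ x = p_(M+i)` is injective, `1 ≤ x ≤ X`,
and `y = x + g`, `1 ≤ g ≤ G` because `p_M ≤ x < y ≤ p_(M+w) ≤ p_M + G`.  Each of the `w` values of `i` contributes at most the double
sum over all `x ≤ X`, `g ≤ G`. -/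
def StmtWN : Prop := ∀ (KK : Finset ℕ) (F : ℕ → ℕ → ℝ) (w K N X G : ℕ) (Mg : Finset ℕ),
  KK ⊆ Icc 1 K → P (N + w) ≤ X → (∀ M ∈ Mg, 1 ≤ M ∧ M ≤ N ∧ P (M + w) ≤ P M + G) →
  ∑ M ∈ Mg, ∑ t ∈ range (K + w), (GM KK F w M t) ^ 2
    ≤ w * ∑ x ∈ Icc 1 X, ∑ k ∈ KK, F k x ^ 2
      + 2 * w * ∑ j ∈ Ico 1 w, ∑ x ∈ Icc 1 X, ∑ g ∈ Icc 1 G, |cc KK F j x (x + g)|

/-- PACKET GP (large gaps).  `∑_(M=1..N) (p_(M+w) - p_M) ≤ w p_(N+w)` (telescoping). -/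
def StmtGP : Prop := ∀ N w G : ℕ,
  ((Icc 1 N).filter (fun M => P M + G < P (M + w))).card * G ≤ w * P (N + w)

/-- PACKET BK (from `card_ND_exp`).  For an odd prime `q ≤ w^20` the number of `k ≤ K` with `q ∤ h_k` is at most
`3 (K + 1) exp (-(2/5) log (K + 1)/log q) ≤ 6 K exp (-(2/5) (1600/20) log w) = 6 K w^(-32)`; sum over the `q`: `6 K w^(-12) ≤ K/w^4`. -/
def StmtBK : Prop := ∀ w K : ℕ, 2 ≤ w → 1600 * Real.log w ^ 2 ≤ Real.log K →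
  ((((Icc 1 K).filter (fun k => ∃ q : ℕ, q.Prime ∧ 3 ≤ q ∧ q ≤ w ^ 20 ∧
    ¬ q ∣ Nat.centralBinom k)).card : ℕ) : ℝ) ≤ K / w ^ 4

/-- PACKET VK (most `k` have a large main factor).  `∑_(k ≤ K) exp (T (2K) k) ≤ C K` (`sum_exp_T`), so at most `K/8` of the `k ≤ K` have `exp
(T (2K) k) > 8 C`; at least `K/2 - K/8` of the `k` in `(K/2, K]` remain.  For them, with `R = ∑_(p ∈ PK 2 z k) 1/p`: `∏ (1 - 1/p) ≥
exp (-R - 1)` or so (`1 - t ≥ exp (-t - t^2)` for `0 ≤ t ≤ 1/2`, `∑ 1/p^2 ≤ 1`).  If `z ≤ 2K`: `R ≤ T (2K) k`, product at least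
`e^(-1)/(8C) ≥ c log K/log N`.  If `2K < z`: `R ≤ T (2K) k + ∑_(2K < p ≤ z) 1/p`, and this sum is at most `log (log z/log K) + C'` (`allSz`, see
`low_k` in `Pool/Agent/Helper10/CB/CF.lean`, and `exp_Sz_up`; or Mertens `Pool.Agent.Helper69.LG.me`); `log z ≤ log N`. -/
def StmtVK : Prop := ∃ c : ℝ, 0 < c ∧ ∀ K z N : ℕ, 3 ≤ K → K ≤ N → 3 ≤ z → z ≤ N →
  3 / 8 * (K : ℝ) ≤ ((((Ioc (K / 2) K).filter (fun k => c * (Real.log K / Real.log N) ≤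
    ∏ p ∈ PK 2 z k, (1 - 1 / (p : ℝ)))).card : ℕ) : ℝ)

/-- `C(2k,k) + p_(n-k)` has no prime factor `≤ z`, `2k < n` -/
def Good (z n k : ℕ) : Prop := 2 * k < n ∧ ∀ q : ℕ, q.Prime → q ∣ Nat.centralBinom k + P (n - k) → z < q

/-- PACKET CO (core; from WT, DG, CC, WN, GP, BK, VK).  Captain. -/
def StmtCO : Prop := ∃ (E A : ℕ) (c C : ℝ), 1 ≤ E ∧ 0 < c ∧ 0 < C ∧ ∀ N K w z : ℕ, 3 ≤ N → 2 ≤ w →
  1600 * Real.log w ^ 2 ≤ Real.log K → K ^ 2 ≤ N → z ^ E ≤ N → w ^ 20 ≤ z →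
  ((((Icc 1 N).filter (fun n => ((((Ioc (K / 2) K).filter (fun k => Good z n k)).card : ℕ) : ℝ)
      < c * (K * (Real.log K / Real.log N)))).card : ℕ) : ℝ) ≤ C * (N * Real.log N ^ A / w)

/-- FIN (from CO).  Captain. -/
def StmtFIN : Prop := ∃ c C : ℝ, 0 < c ∧ 0 < C ∧ ∀ N K : ℕ, 3 ≤ N →
  Real.exp (C * Real.log (Real.log N) ^ 2) ≤ K → K ^ 2 ≤ N →
  ((((Icc 1 N).filter (fun n => ((((Ioc (K / 2) K).filter (fun k => 2 * k < n ∧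
      ∀ q : ℕ, q.Prime → q ∣ Nat.centralBinom k + Nat.nth Nat.Prime (n - k - 1) →
        (N : ℝ) ^ c < q)).card : ℕ) : ℝ)
      < c * (K * (Real.log K / Real.log N)))).card : ℕ) : ℝ)
    ≤ N * Real.exp (-(c * √(Real.log K)))

end Pool.Agent.Helper48.AA
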