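import Mathlib
import Pool.Agent.Helper48.AA.Goals
import Pool.Agent.Helper10.CB.TT

/-!
# Project AA: bounds for the m-th prime, the windows of t
-/

set_option autoImplicit false

open Finset Filter Topology

open scoped Classical

namespace Pool.Agent.Helper48.AA

open Pool.Agent.Helper10.CB (P P_ge P_prime log_ge_one)

theorem P_strictMono {m m' : ℕ} (hm : 1 ≤ m) (h : m < m') : P m < P m' := by
  unfold Pool.Agent.Helper10.CB.P
  exact Nat.nth_strictMono Nat.infinite_setOfPred_prime (by omega)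

theorem pi_P {m : ℕ} (hm : 1 ≤ m) : Nat.primeCounting (P m) = m := by
  unfold Pool.Agent.Helper10.CB.P Nat.primeCounting Nat.primeCounting'
  rw [Nat.count_nth_succ_of_infinite Nat.infinite_setOfPred_prime]
  omega

/-- upper bound for the `N`-th prime -/
theorem P_le {N : ℕ} (hN : 3 ≤ N) : (P N : ℝ) ≤ 24 * N * Real.log N := by
  set X := P N with hX
  have h2 : Nat.primeCounting X = N := pi_P (by omega)
  have hX4 : 4 ≤ X := by
    have := P_ge (show 1 ≤ N by omega)
    omega
  have h3 := Chebyshev.pi_ge X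
  rw [h2] at h3
  have hXr : (4 : ℝ) ≤ X := by exact_mod_cast hX4
  have hNr : (3 : ℝ) ≤ N := by exact_mod_cast hN
  have hlX : 1 ≤ Real.log X := log_ge_one (by omega)
  have hlN : 1 ≤ Real.log N := log_ge_one hN
  rw [div_le_iff₀ (by linarith)] at h3
  have h4 : Real.log 4 ≤ 1.3864 := by
    have g3 : Real.log 4 = 2 * Real.log 2 := by
      rw [show (4 : ℝ) = 2 ^ 2 by norm_num, Real.log_pow]; norm_num
    have := Real.log_two_lt_d9
    linarith
  have h5 : Real.log ((X : ℝ) + 1) ≤ (X + 1) / 4 - 1 + 1.3864 := by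
    have g1 : Real.log ((X : ℝ) + 1) = Real.log (((X : ℝ) + 1) / 4) + Real.log 4 := by
      rw [← Real.log_mul (by positivity) (by norm_num)]
      congr 1
      ring
    have g2 := Real.log_le_sub_one_of_pos (show 0 < ((X : ℝ) + 1) / 4 by positivity)
    linarith
  have h6 := Real.log_two_gt_d9
  have h7 : (X : ℝ) / 4 ≤ N * Real.log X := by
    have : (X : ℝ) * (0.6931) ≤ X * Real.log 2 := mul_le_mul_of_nonneg_left (by linarith) (by linarith)
    linarith
  -- the square root
  set s := Real.sqrt X with hs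
  have hs0 : 0 < s := Real.sqrt_pos.2 (by linarith)
  have hs2 : s ^ 2 = X := Real.sq_sqrt (by linarith)
  have h8 : Real.log X ≤ 2 * s := by
    have g1 : Real.log X = 2 * Real.log s := by
      rw [← hs2, Real.log_pow]
      norm_num
    have g2 := Real.log_le_sub_one_of_pos hs0
    linarith
  have h9 : s ≤ 8 * N := by
    have g1 : s * s ≤ (8 * N) * s := by
      have g2 : (N : ℝ) * Real.log X ≤ N * (2 * s) := mul_le_mul_of_nonneg_left h8 (by linarith)
      have g3 : s * s = X := by rw [← hs2]; ring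
      rw [g3]
      linarith
    exact le_of_mul_le_mul_right g1 hs0
  have h10 : Real.log X ≤ 6 * Real.log N := by
    have g1 : (X : ℝ) ≤ 4 ^ 3 * (N : ℝ) ^ 2 := by
      rw [← hs2]
      calc s ^ 2 ≤ (8 * N) ^ 2 := pow_le_pow_left₀ hs0.le h9 2
        _ = 4 ^ 3 * (N : ℝ) ^ 2 := by ring
    have g2 := Real.log_le_log (by linarith) g1
    rw [Real.log_mul (by norm_num) (by positivity), Real.log_pow, Real.log_pow] at g2
    push_cast at g2
    have g3 : 3 * Real.log 4 ≤ 4 * Real.log N := by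
      have g4 : Real.log 3 ≤ Real.log N := Real.log_le_log (by norm_num) hNr
      have g5 : 3 * Real.log 4 ≤ 4 * Real.log 3 := by
        have e1 : 3 * Real.log 4 = Real.log (4 ^ 3) := by rw [Real.log_pow]; norm_num
        have e2 : 4 * Real.log 3 = Real.log (3 ^ 4) := by rw [Real.log_pow]; norm_num
        rw [e1, e2]
        exact Real.log_le_log (by norm_num) (by norm_num)
      linarith
    linarith
  calc (X : ℝ) ≤ 4 * (N * Real.log X) := by linarith
    _ ≤ 4 * (N * (6 * Real.log N)) := by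
        refine mul_le_mul_of_nonneg_left ?_ (by norm_num)
        exact mul_le_mul_of_nonneg_left h10 (by linarith)
    _ = 24 * N * Real.log N := by ring

/-- bound for the range of the primes -/
theorem P_le' {N w : ℕ} (hN : 3 ≤ N) (hw : w ≤ N) : (P (N + w) : ℝ) ≤ 96 * N * Real.log N := by
  have h1 := P_le (show 3 ≤ N + w by omega)
  have hNr : (3 : ℝ) ≤ N := by exact_mod_cast hN
  have hwr : (w : ℝ) ≤ N := by exact_mod_cast hw
  have hw0 : (0 : ℝ) ≤ w := Nat.cast_nonneg w
  have hlN : 1 ≤ Real.log N := log_ge_one hN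
  push_cast at h1
  have h2 : Real.log ((N : ℝ) + w) ≤ 2 * Real.log N := by
    have h3 : (N : ℝ) + w ≤ (N : ℝ) ^ 2 := by nlinarith
    have h4 := Real.log_le_log (by linarith) h3
    rw [Real.log_pow] at h4
    push_cast at h4
    exact h4
  calc (P (N + w) : ℝ) ≤ 24 * (N + w) * Real.log (N + w) := h1
    _ ≤ 24 * (N + N) * (2 * Real.log N) := by
        refine mul_le_mul (by linarith) h2 (Real.log_nonneg (by linarith)) (by linarith)
    _ = 96 * N * Real.log N := by ring

/-- many windows `(t - w, t]` consist of good `k` and contain many `k` of `Ft` -/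
theorem tset_card (K w : ℕ) (Ft Bad : Finset ℕ) (hFt : Ft ⊆ Ioc (K / 2) K)
    (h1 : 3 / 8 * (K : ℝ) ≤ (Ft.card : ℝ)) (h2 : (Bad.card : ℝ) ≤ K / (w : ℝ) ^ 4) (hw : 2 ≤ w)
    (hwK : 32 * w ≤ K) :
    (K : ℝ) / 16 ≤ (((Ioc (K / 2 + w) K).filter (fun t => (∀ i < w, t - i ∉ Bad) ∧
      w ≤ 4 * ((range w).filter (fun i => t - i ∈ Ft)).card)).card : ℝ) := by
  have hw0 : (0 : ℝ) < w := by exact_mod_cast (by omega : 0 < w)
  have hw2 : (2 : ℝ) ≤ w := by exact_mod_cast hw
  have hK0 : (0 : ℝ) ≤ K := Nat.cast_nonneg K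
  set I := Ioc (K / 2 + w) K with hI
  set cn : ℕ → ℕ := fun t => ((range w).filter (fun i => t - i ∈ Ft)).card with hcn
  set A1 := I.filter (fun t => w ≤ 4 * cn t) with hA1
  set A2 := I.filter (fun t => ¬ (∀ i < w, t - i ∉ Bad)) with hA2
  -- double counting
  have e1 : ∑ t ∈ I, cn t = ∑ i ∈ range w, (I.filter (fun t => t - i ∈ Ft)).card := by
    simp only [hcn, card_filter]
    exact sum_comm
  have e2 : ∀ i ∈ range w, Ft.card ≤ (I.filter (fun t => t - i ∈ Ft)).card + w := by
    intro i hi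
    rw [mem_range] at hi
    have g1 : Ft ⊆ ((I.filter (fun t => t - i ∈ Ft)).image (fun t => t - i)) ∪
        (Ioc (K / 2) (K / 2 + (w - i)) ∪ Ioc (K - i) K) := by
      intro k hk
      have hk' := hFt hk
      rw [mem_Ioc] at hk'
      rw [mem_union, mem_image, mem_union, mem_Ioc, mem_Ioc]
      by_cases h : K / 2 + w < k + i ∧ k + i ≤ K
      · left
        refine ⟨k + i, ?_, by omega⟩
        rw [mem_filter, hI, mem_Ioc]
        refine ⟨h, ?_⟩
        rw [Nat.add_sub_cancel]
        exact hk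
      · right
        omega
    have g2 := card_le_card g1
    have g3 := card_union_le ((I.filter (fun t => t - i ∈ Ft)).image (fun t => t - i))
      (Ioc (K / 2) (K / 2 + (w - i)) ∪ Ioc (K - i) K)
    have g4 := card_union_le (Ioc (K / 2) (K / 2 + (w - i))) (Ioc (K - i) K)
    have g5 := card_image_le (s := I.filter (fun t => t - i ∈ Ft)) (f := fun t => t - i)
    rw [Nat.card_Ioc, Nat.card_Ioc] at g4
    omega
  have e3 : w * Ft.card ≤ ∑ t ∈ I, cn t + w * w := by
    rw [e1]
    have g := sum_le_sum e2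
    rw [sum_const, card_range, smul_eq_mul, sum_add_distrib, sum_const, card_range, smul_eq_mul] at g
    exact g
  have e4 : ∑ t ∈ I, cn t ≤ w * A1.card + ∑ t ∈ I.filter (fun t => ¬ w ≤ 4 * cn t), cn t := by
    rw [← sum_filter_add_sum_filter_not I (fun t => w ≤ 4 * cn t)]
    refine Nat.add_le_add_right ?_ _
    have g : ∀ t ∈ I.filter (fun t => w ≤ 4 * cn t), cn t ≤ w := by
      intro t _
      simp only [hcn]
      exact (card_filter_le _ _).trans (by rw [card_range])
    have g2 := sum_le_sum g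
    rw [sum_const, smul_eq_mul, mul_comm] at g2
    exact g2
  have e5 : 4 * ∑ t ∈ I.filter (fun t => ¬ w ≤ 4 * cn t), cn t ≤ w * (K - K / 2) := by
    rw [mul_sum]
    have g : ∀ t ∈ I.filter (fun t => ¬ w ≤ 4 * cn t), 4 * cn t ≤ w := by
      intro t ht
      rw [mem_filter] at ht
      omega
    have g2 := sum_le_sum g
    rw [sum_const, smul_eq_mul, mul_comm] at g2
    refine g2.trans (Nat.mul_le_mul_left _ ?_)
    refine (card_filter_le _ _).trans ?_
    rw [hI, Nat.card_Ioc]
    omega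
  -- bad t
  have e6 : A2.card ≤ w * Bad.card := by
    have g1 : A2 ⊆ (range w).biUnion (fun i => Bad.image (fun k => k + i)) := by
      intro t ht
      rw [hA2, mem_filter, hI, mem_Ioc] at ht
      obtain ⟨g2, g3⟩ := ht
      push Not at g3
      obtain ⟨i, hi, g4⟩ := g3
      rw [mem_biUnion]
      refine ⟨i, mem_range.2 hi, ?_⟩
      rw [mem_image]
      exact ⟨t - i, g4, by omega⟩
    refine (card_le_card g1).trans (card_biUnion_le.trans ?_)
    have g5 : ∀ i ∈ range w, (Bad.image (fun k => k + i)).card ≤ Bad.card := fun i _ => card_image_le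
    have g6 := sum_le_sum g5
    rw [sum_const, card_range, smul_eq_mul] at g6
    exact g6
  -- conclusion
  have e7 : A1.card ≤ (I.filter (fun t => (∀ i < w, t - i ∉ Bad) ∧ w ≤ 4 * cn t)).card + A2.card := by
    have g1 : A1 ⊆ (I.filter (fun t => (∀ i < w, t - i ∉ Bad) ∧ w ≤ 4 * cn t)) ∪ A2 := by
      intro t ht
      rw [hA1, mem_filter] at ht
      rw [mem_union, mem_filter, hA2, mem_filter]
      by_cases h : ∀ i < w, t - i ∉ Bad
      · left
        exact ⟨ht.1, h, ht.2⟩
      · right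
        exact ⟨ht.1, h⟩
    exact (card_le_card g1).trans (card_union_le _ _)
  have f3 : (w : ℝ) * Ft.card ≤ ((∑ t ∈ I, cn t : ℕ) : ℝ) + w * w := by exact_mod_cast e3
  have f4 : ((∑ t ∈ I, cn t : ℕ) : ℝ) ≤ w * A1.card +
      ((∑ t ∈ I.filter (fun t => ¬ w ≤ 4 * cn t), cn t : ℕ) : ℝ) := by exact_mod_cast e4
  have f5 : 4 * ((∑ t ∈ I.filter (fun t => ¬ w ≤ 4 * cn t), cn t : ℕ) : ℝ) ≤ w * ((K - K / 2 : ℕ) : ℝ) := by
    exact_mod_cast e5
  have f6 : (A2.card : ℝ) ≤ w * Bad.card := by exact_mod_cast e6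
  have f7 : (A1.card : ℝ) ≤ ((I.filter (fun t => (∀ i < w, t - i ∉ Bad) ∧ w ≤ 4 * cn t)).card : ℝ)
      + A2.card := by exact_mod_cast e7
  have f8 : ((K - K / 2 : ℕ) : ℝ) ≤ (K + 1) / 2 := by
    have : 2 * (K - K / 2) ≤ K + 1 := by omega
    have h : (2 : ℝ) * ((K - K / 2 : ℕ) : ℝ) ≤ K + 1 := by exact_mod_cast this
    linarith
  have f9 : (A2.card : ℝ) ≤ K / 8 := by
    refine f6.trans ?_
    calc (w : ℝ) * Bad.card ≤ w * (K / (w : ℝ) ^ 4) := mul_le_mul_of_nonneg_left h2 hw0.le
      _ = K / (w : ℝ) ^ 3 := by field_simp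
      _ ≤ K / 8 := by
          apply div_le_div_of_nonneg_left hK0 (by norm_num)
          calc (8 : ℝ) = 2 ^ 3 := by norm_num
            _ ≤ (w : ℝ) ^ 3 := pow_le_pow_left₀ (by norm_num) hw2 3
  have f10 : (w : ℝ) * Ft.card ≤ w * (A1.card + (K + 1) / 8 + w) := by
    have : (w : ℝ) * ((K - K / 2 : ℕ) : ℝ) ≤ w * ((K + 1) / 2) := mul_le_mul_of_nonneg_left f8 hw0.le
    nlinarith
  have f11 := le_of_mul_le_mul_left f10 hw0
  have f12 : 32 * (w : ℝ) ≤ K := by exact_mod_cast hwK
  linarith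

end Pool.Agent.Helper48.AA
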