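import Mathlib
import Pool.Agent.Helper48.AA.PL

/-!
# Project AA: the counting of the core
-/

set_option autoImplicit false

open Finset Filter Topology

open scoped Classical

namespace Pool.Agent.Helper48.AA

open Pool.Agent.Helper10.CB (P P_ge P_prime log_ge_one not_two_dvd)

theorem Fx_le {D : ℕ} {la : ℕ → ℝ} {Pk : Finset ℕ} (hW : Wt D Pk la) {a x : ℕ} (hax : 1 ≤ x + a)
    (hs : ∑ d ∈ (x + a).divisors, la d ≤ if ∀ p ∈ Pk, ¬ p ∣ x + a then 1 else 0) :
    Fx D la a x ≤ (if ∀ p ∈ Pk, ¬ p ∣ x + a then 1 else 0) - ∑ d ∈ Icc 1 D, la d / d := by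
  have e1 : Fx D la a x = ∑ d ∈ (Icc 1 D).filter (fun d => d ∣ x + a), la d
      - ∑ d ∈ Icc 1 D, la d / d := by
    unfold Fx
    rw [sum_filter, ← sum_sub_distrib]
    refine sum_congr rfl fun d _ => ?_
    split_ifs <;> ring
  have e2 : ∑ d ∈ (Icc 1 D).filter (fun d => d ∣ x + a), la d = ∑ d ∈ (x + a).divisors, la d := by
    refine sum_subset ?_ ?_
    · intro d hd
      rw [mem_filter] at hd
      exact Nat.mem_divisors.2 ⟨hd.2, by omega⟩
    · intro d hd hd2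
      by_contra hne
      rw [Nat.mem_divisors] at hd
      apply hd2
      rw [mem_filter, mem_Icc]
      exact ⟨⟨Nat.pos_of_dvd_of_pos hd.1 (by omega), (hW.2 d hne).2⟩, hd.1⟩
  rw [e1, e2]
  linarith

/-- the `k` of `(K/2, K]` such that all odd primes up to `w^20` divide `C(2k,k)` -/
noncomputable def KK (K w : ℕ) : Finset ℕ := (Ioc (K / 2) K).filter (fun k =>
  ∀ q : ℕ, q.Prime → 3 ≤ q → q ≤ w ^ 20 → q ∣ Nat.centralBinom k)

/-- the other ones -/
noncomputable def Bd (K w : ℕ) : Finset ℕ := (Icc 1 K).filter (fun k => ∃ q : ℕ, q.Prime ∧ 3 ≤ q ∧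
  q ≤ w ^ 20 ∧ ¬ q ∣ Nat.centralBinom k)

theorem mem_KK_of {K w k : ℕ} (h1 : K / 2 < k) (h2 : k ≤ K) (h3 : k ∉ Bd K w) : k ∈ KK K w := by
  unfold KK
  rw [mem_filter, mem_Ioc]
  refine ⟨⟨h1, h2⟩, fun q hq h4 h5 => ?_⟩
  by_contra h6
  apply h3
  unfold Bd
  rw [mem_filter, mem_Icc]
  exact ⟨⟨by omega, h2⟩, q, hq, h4, h5, h6⟩

theorem KK_sub (K w : ℕ) : KK K w ⊆ Icc 1 K := by
  intro k hk
  unfold KK at hk
  rw [mem_filter, mem_Ioc] at hk
  rw [mem_Icc]
  omega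

theorem good_of {K w z n k : ℕ} (hk : k ∈ KK K w) (hn : 2 * k < n) (hz : z + k ≤ n)
    (h : ∀ p ∈ PK (w ^ 20) z k, ¬ p ∣ P (n - k) + Nat.centralBinom k) : Good z n k := by
  refine ⟨hn, fun q hq hqd => ?_⟩
  have hk' := hk
  unfold KK at hk'
  rw [mem_filter, mem_Ioc] at hk'
  obtain ⟨⟨h1, h2⟩, h3⟩ := hk'
  have hPz : z < P (n - k) := by
    have := P_ge (show 1 ≤ n - k by omega)
    omega
  by_contra hcon
  push Not at hcon
  have hnot : ¬ q ∣ Nat.centralBinom k := by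
    intro h4
    have h5 : q ∣ P (n - k) := (Nat.dvd_add_right h4).1 hqd
    have h6 := (Nat.prime_dvd_prime_iff_eq hq (P_prime (n - k))).1 h5
    omega
  rcases Nat.eq_or_lt_of_le hq.two_le with h4 | h4
  · rw [← h4] at hqd
    exact not_two_dvd (by omega) (by omega) hqd
  · by_cases h5 : q ≤ w ^ 20
    · exact hnot (h3 q hq (by omega) h5)
    · push Not at h5
      refine h q (mem_PK.2 ⟨⟨h5, hcon⟩, hq, hnot⟩) ?_
      rw [add_comm]
      exact hqd

/-- for an exceptional `n` many windows contain few good `k` -/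
theorem per_n (K w : ℕ) (Ts Gd : Finset ℕ) (v : ℝ) (hv : 0 < v) (hw : 2 ≤ w) (hK : 0 < K)
    (hTs : Ts ⊆ Ioc (K / 2 + w) K) (h1 : (K : ℝ) / 16 ≤ (Ts.card : ℝ))
    (h2 : (Gd.card : ℝ) < v / 256 * K) :
    (K : ℝ) / 32 ≤ ((Ts.filter (fun t => ((((range w).filter (fun i => t - i ∈ Gd)).card : ℕ) : ℝ)
      < w / 8 * v)).card : ℝ) := by
  have hw0 : (0 : ℝ) < w := by exact_mod_cast (by omega : 0 < w)
  set cn : ℕ → ℕ := fun t => ((range w).filter (fun i => t - i ∈ Gd)).card with hcn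
  have e1 : ∑ t ∈ Ts, cn t = ∑ i ∈ range w, (Ts.filter (fun t => t - i ∈ Gd)).card := by
    simp only [hcn, card_filter]
    exact sum_comm
  have e2 : ∀ i ∈ range w, (Ts.filter (fun t => t - i ∈ Gd)).card ≤ Gd.card := by
    intro i hi
    rw [mem_range] at hi
    refine card_le_card_of_injOn (fun t => t - i) ?_ ?_
    · intro t ht
      rw [mem_coe, mem_filter] at ht
      exact ht.2
    · intro t ht t' ht' h
      rw [mem_coe, mem_filter] at ht ht'
      have g1 := hTs ht.1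
      have g2 := hTs ht'.1
      rw [mem_Ioc] at g1 g2
      simp only at h
      omega
  have e3 : ∑ t ∈ Ts, cn t ≤ w * Gd.card := by
    rw [e1]
    have g := sum_le_sum e2
    rw [sum_const, card_range, smul_eq_mul] at g
    exact g
  set A := Ts.filter (fun t => (cn t : ℝ) < w / 8 * v) with hA
  set B := Ts.filter (fun t => ¬ (cn t : ℝ) < w / 8 * v) with hB
  have e4 : (B.card : ℝ) * (w / 8 * v) ≤ ((∑ t ∈ Ts, cn t : ℕ) : ℝ) := by
    calc (B.card : ℝ) * (w / 8 * v) = ∑ t ∈ B, (w / 8 * v) := by rw [sum_const, nsmul_eq_mul]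
      _ ≤ ∑ t ∈ B, (cn t : ℝ) := by
          refine sum_le_sum fun t ht => ?_
          rw [hB, mem_filter] at ht
          push Not at ht
          exact ht.2
      _ ≤ ∑ t ∈ Ts, (cn t : ℝ) :=
          sum_le_sum_of_subset_of_nonneg (filter_subset _ _) fun _ _ _ => Nat.cast_nonneg _
      _ = ((∑ t ∈ Ts, cn t : ℕ) : ℝ) := by push_cast; rfl
  have e5 : ((∑ t ∈ Ts, cn t : ℕ) : ℝ) ≤ w * Gd.card := by exact_mod_cast e3
  have e6 : (B.card : ℝ) ≤ K / 32 := by
    have g1 : (B.card : ℝ) * (w / 8 * v) ≤ K / 32 * (w / 8 * v) := by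
      have g2 : (w : ℝ) * Gd.card ≤ w * (v / 256 * K) := mul_le_mul_of_nonneg_left h2.le hw0.le
      calc (B.card : ℝ) * (w / 8 * v) ≤ w * (v / 256 * K) := by linarith
        _ = K / 32 * (w / 8 * v) := by ring
    exact le_of_mul_le_mul_right g1 (by positivity)
  have e7 : (Ts.card : ℝ) = A.card + B.card := by
    have := card_filter_add_card_filter_not (s := Ts) (fun t => (cn t : ℝ) < w / 8 * v)
    have h : A.card + B.card = Ts.card := this
    exact_mod_cast h.symm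
  linarith

/-- from windows to the exceptional `n` -/
theorem count_core (N K w n0 : ℕ) (Ex Ts gap Mg : Finset ℕ) (G : ℕ → ℕ → ℝ) (θ E2 : ℝ)
    (hθ : 0 < θ) (hK : 0 < K) (hTs : Ts ⊆ Ioc 0 K) (hn0 : K ≤ n0) (hEx : Ex ⊆ Icc 1 N)
    (h : ∀ n ∈ Ex, n0 < n → (K : ℝ) / 32 ≤
      ((Ts.filter (fun t => n - t ∈ gap ∨ (n - t ∈ Mg ∧ θ ≤ (G (n - t) t) ^ 2))).card : ℝ))
    (hE2 : ∑ M ∈ Mg, ∑ t ∈ range (K + w), (G M t) ^ 2 ≤ E2) (hw : 1 ≤ w) :
    (Ex.card : ℝ) ≤ n0 + 32 / K * (E2 / θ + K * gap.card) := by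
  have hK0 : (0 : ℝ) < K := by exact_mod_cast hK
  set Ex' := Ex.filter (fun n => n0 < n) with hEx'
  have e1 : (Ex.card : ℝ) ≤ n0 + Ex'.card := by
    have g1 : Ex ⊆ Icc 1 n0 ∪ Ex' := by
      intro n hn
      have := hEx hn
      rw [mem_Icc] at this
      rw [mem_union, mem_Icc, hEx', mem_filter]
      by_cases h : n ≤ n0
      · left; exact ⟨this.1, h⟩
      · right; exact ⟨hn, by omega⟩
    have g2 := (card_le_card g1).trans (card_union_le _ _)
    rw [Nat.card_Icc, Nat.add_sub_cancel] at g2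
    exact_mod_cast g2
  set Pr : Finset (ℕ × ℕ) := (Ex' ×ˢ Ts).filter (fun a => a.1 - a.2 ∈ gap ∨
    (a.1 - a.2 ∈ Mg ∧ θ ≤ (G (a.1 - a.2) a.2) ^ 2)) with hPr
  have e2 : (K : ℝ) / 32 * Ex'.card ≤ Pr.card := by
    have g1 : Pr.card = ∑ n ∈ Ex', (Ts.filter (fun t => n - t ∈ gap ∨
        (n - t ∈ Mg ∧ θ ≤ (G (n - t) t) ^ 2))).card := by
      rw [hPr, card_filter, sum_product]
      exact sum_congr rfl fun n _ => (card_filter _ _).symm
    rw [g1]
    push_cast
    calc (K : ℝ) / 32 * Ex'.card = ∑ n ∈ Ex', (K : ℝ) / 32 := by rw [sum_const, nsmul_eq_mul, mul_comm]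
      _ ≤ _ := sum_le_sum fun n hn => by
          rw [hEx', mem_filter] at hn
          exact h n hn.1 hn.2
  set B1 : Finset (ℕ × ℕ) := (Mg ×ˢ range (K + w)).filter (fun a => θ ≤ (G a.1 a.2) ^ 2) with hB1
  have e3 : Pr.card ≤ (gap ×ˢ Ioc 0 K ∪ B1).card := by
    refine card_le_card_of_injOn (fun a => (a.1 - a.2, a.2)) ?_ ?_
    · intro a ha
      rw [mem_coe, hPr, mem_filter, mem_product] at ha
      obtain ⟨⟨g1, g2⟩, g3⟩ := ha
      have g4 := hTs g2
      rw [mem_coe, mem_union, mem_product, hB1, mem_filter, mem_product, mem_range]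
      rcases g3 with g3 | g3
      · left; exact ⟨g3, g4⟩
      · right
        rw [mem_Ioc] at g4
        exact ⟨⟨g3.1, by simp only; omega⟩, g3.2⟩
    · intro a ha b hb hab
      rw [mem_coe, hPr, mem_filter, mem_product, hEx', mem_filter] at ha hb
      have g4 := hTs ha.1.2
      have g5 := hTs hb.1.2
      rw [mem_Ioc] at g4 g5
      simp only [Prod.mk.injEq] at hab
      ext
      · omega
      · exact hab.2
  have e4 : (B1.card : ℝ) ≤ E2 / θ := by
    rw [le_div_iff₀ hθ]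
    refine le_trans ?_ hE2
    rw [← sum_product']
    calc (B1.card : ℝ) * θ = ∑ a ∈ B1, θ := by rw [sum_const, nsmul_eq_mul]
      _ ≤ ∑ a ∈ B1, (G a.1 a.2) ^ 2 := sum_le_sum fun a ha => by
          rw [hB1, mem_filter] at ha
          exact ha.2
      _ ≤ _ := sum_le_sum_of_subset_of_nonneg (filter_subset _ _) fun _ _ _ => sq_nonneg _
  have e5 : (Pr.card : ℝ) ≤ gap.card * K + B1.card := by
    have g1 := e3.trans (card_union_le _ _)
    rw [card_product, Nat.card_Ioc, Nat.sub_zero] at g1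
    exact_mod_cast g1
  have e6 : (Ex'.card : ℝ) ≤ 32 / K * (E2 / θ + K * gap.card) := by
    have g1 : (K : ℝ) / 32 * Ex'.card ≤ E2 / θ + K * gap.card := by linarith
    calc (Ex'.card : ℝ) = 32 / K * ((K : ℝ) / 32 * Ex'.card) := by field_simp
      _ ≤ _ := mul_le_mul_of_nonneg_left g1 (by positivity)
  linarith

end Pool.Agent.Helper48.AA
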