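import Mathlib
import Pool.Agent.Helper48.AA.Goals
import Pool.Agent.Helper10.CB.TT

/-!
# Project AA, packets LZ, BK: Mertens products, central binomial coefficients prime to a small prime
-/

set_option autoImplicit false

open Finset Filter Topology

open scoped Classical

namespace Pool.Agent.Helper48.AA

open Pool.Agent.Helper10.CB (ND mem_ND card_ND_exp log_ge_one)

theorem sum_inv_le : ∃ C : ℝ, 0 < C ∧ ∀ z : ℕ, 3 ≤ z → ∀ P : Finset ℕ, (∀ p ∈ P, p.Prime ∧ p ≤ z) →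
    ∑ p ∈ P, 1 / (p : ℝ) ≤ Real.log (Real.log z) + C := by
  obtain ⟨C, hC, hme⟩ := Pool.Agent.Helper69.LG.me
  have hl2 : 0 < Real.log 2 := Real.log_pos (by norm_num)
  have hl1 : Real.log 2 < 1 := by
    have := Real.log_two_lt_d9
    linarith
  refine ⟨1 / 2 + (-Real.log (Real.log 2)) + C / Real.log 2, ?_, fun z hz P hP => ?_⟩
  · have : Real.log (Real.log 2) < 0 := Real.log_neg hl2 hl1
    have : 0 < C / Real.log 2 := by positivity
    linarith
  have hlz := log_ge_one hz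
  have h1 := hme 2 z le_rfl (by exact_mod_cast (by omega : 2 ≤ z))
  have h2 : ∑ p ∈ P, 1 / (p : ℝ) ≤ 1 / 2 +
      ∑ p ∈ (Icc 1 z).filter (fun p : ℕ => p.Prime ∧ (2 : ℝ) < (p : ℝ)), 1 / (p : ℝ) := by
    have h3 : P ⊆ insert 2 ((Icc 1 z).filter (fun p : ℕ => p.Prime ∧ (2 : ℝ) < (p : ℝ))) := by
      intro p hp
      obtain ⟨g1, g2⟩ := hP p hp
      rw [mem_insert, mem_filter, mem_Icc]
      rcases Nat.eq_or_lt_of_le g1.two_le with h | h
      · left; exact h.symm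
      · right
        exact ⟨⟨by omega, g2⟩, g1, by exact_mod_cast h⟩
    refine (sum_le_sum_of_subset_of_nonneg h3 fun _ _ _ => by positivity).trans ?_
    rw [sum_insert]
    · push_cast
      exact le_rfl
    · rw [mem_filter]
      rintro ⟨-, -, h⟩
      norm_num at h
  rw [Real.log_div (by linarith) hl2.ne'] at h1
  linarith

theorem gLZ : StmtLZ := by
  intro r
  obtain ⟨C, hC, h⟩ := sum_inv_le
  refine ⟨Real.exp (2 ^ r * C), ?_, fun z hz P hP => ?_⟩
  · apply Real.one_le_exp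
    positivity
  have hlz := log_ge_one hz
  have h1 := h z hz P hP
  have h2 : ∏ p ∈ P, (1 + 2 ^ r / (p : ℝ)) ≤ ∏ p ∈ P, Real.exp (2 ^ r / (p : ℝ)) := by
    refine prod_le_prod (fun p _ => by positivity) fun p _ => ?_
    have := Real.add_one_le_exp (2 ^ r / (p : ℝ))
    linarith
  refine h2.trans ?_
  rw [← Real.exp_sum]
  have h3 : ∑ p ∈ P, (2 : ℝ) ^ r / (p : ℝ) = 2 ^ r * ∑ p ∈ P, 1 / (p : ℝ) := by
    rw [mul_sum]
    exact sum_congr rfl fun p _ => by ring
  rw [h3]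
  have h4 : (2 : ℝ) ^ r * ∑ p ∈ P, 1 / (p : ℝ) ≤ 2 ^ r * C + ((2 ^ r : ℕ) : ℝ) * Real.log (Real.log z) := by
    push_cast
    have h5 : (0 : ℝ) ≤ 2 ^ r := by positivity
    nlinarith
  refine (Real.exp_le_exp.2 h4).trans (le_of_eq ?_)
  rw [Real.exp_add, Real.exp_nat_mul, Real.exp_log (by linarith)]

theorem gBK : StmtBK := by
  intro w K hw hK
  have hlw : 0 < Real.log w := Real.log_pos (by exact_mod_cast (by omega : 1 < w))
  have hl2 : Real.log 2 ≤ Real.log w := Real.log_le_log (by norm_num) (by exact_mod_cast hw)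
  have hl2' := Real.log_two_gt_d9
  have hw0 : (0 : ℝ) < w := by exact_mod_cast (by omega : 0 < w)
  have hw2 : (2 : ℝ) ≤ w := by exact_mod_cast hw
  have hlK : 0 < Real.log K := lt_of_lt_of_le (by positivity) hK
  have hK1 : 1 < K := by
    by_contra h
    push Not at h
    interval_cases K
    · simp at hlK
    · simp at hlK
  have hKr : (1 : ℝ) < K := by exact_mod_cast hK1
  have hwK : w ^ 20 ≤ K := by
    have h1 : Real.log ((w : ℝ) ^ 20) ≤ Real.log K := by
      rw [Real.log_pow]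
      push_cast
      nlinarith
    have h2 := (Real.log_le_log_iff (by positivity) (by linarith)).1 h1
    exact_mod_cast h2
  have hlK1 : Real.log K ≤ Real.log ((K + 1 : ℕ) : ℝ) := by
    apply Real.log_le_log (by linarith)
    push_cast
    linarith
  have hb : ∀ q ∈ (Icc 3 (w ^ 20)).filter Nat.Prime,
      (((ND q (K + 1)).card : ℕ) : ℝ) ≤ 6 * K * (1 / (w : ℝ) ^ 32) := by
    intro q hq
    rw [mem_filter, mem_Icc] at hq
    obtain ⟨⟨hq3, hqw⟩, hqp⟩ := hq
    have h1 := card_ND_exp hqp hq3 (show q ≤ K + 1 by omega)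
    have hlq := log_ge_one hq3
    have h2 : Real.log q ≤ 20 * Real.log w := by
      have h3 : (q : ℝ) ≤ (w : ℝ) ^ 20 := by exact_mod_cast hqw
      have h4 := Real.log_le_log (by linarith [show (3 : ℝ) ≤ q by exact_mod_cast hq3]) h3
      rw [Real.log_pow] at h4
      push_cast at h4
      exact h4
    have h5 : 80 * Real.log w ≤ Real.log ((K + 1 : ℕ) : ℝ) / Real.log q := by
      rw [le_div_iff₀ (by linarith)]
      nlinarith
    have h6 : Real.exp (-(2 / 5 * (Real.log ((K + 1 : ℕ) : ℝ) / Real.log q))) ≤ 1 / (w : ℝ) ^ 32 := by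
      have h7 : Real.exp (-(2 / 5 * (Real.log ((K + 1 : ℕ) : ℝ) / Real.log q)))
          ≤ Real.exp (-(((32 : ℕ) : ℝ) * Real.log w)) := by
        apply Real.exp_le_exp.2
        push_cast
        push_cast at h5
        linarith
      refine h7.trans (le_of_eq ?_)
      rw [Real.exp_neg, Real.exp_nat_mul, Real.exp_log hw0, one_div]
    have h8 : (((K + 1 : ℕ) : ℕ) : ℝ) ≤ 2 * K := by
      push_cast
      linarith
    calc (((ND q (K + 1)).card : ℕ) : ℝ)
        ≤ 3 * ((K + 1 : ℕ) : ℝ) * Real.exp (-(2 / 5 * (Real.log ((K + 1 : ℕ) : ℝ) / Real.log q))) := h1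
      _ ≤ 3 * (2 * K) * (1 / (w : ℝ) ^ 32) := by
          refine mul_le_mul ?_ h6 (Real.exp_pos _).le (by positivity)
          linarith
      _ = 6 * K * (1 / (w : ℝ) ^ 32) := by ring
  have hsub : (Icc 1 K).filter (fun k => ∃ q : ℕ, q.Prime ∧ 3 ≤ q ∧ q ≤ w ^ 20 ∧
      ¬ q ∣ Nat.centralBinom k) ⊆ ((Icc 3 (w ^ 20)).filter Nat.Prime).biUnion (fun q => ND q (K + 1)) := by
    intro k hk
    rw [mem_filter, mem_Icc] at hk
    obtain ⟨⟨h1, h2⟩, q, h3, h4, h5, h6⟩ := hk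
    rw [mem_biUnion]
    refine ⟨q, ?_, ?_⟩
    · rw [mem_filter, mem_Icc]
      exact ⟨⟨h4, h5⟩, h3⟩
    · rw [mem_ND]
      exact ⟨by omega, h6⟩
  have h1 : ((((Icc 1 K).filter (fun k => ∃ q : ℕ, q.Prime ∧ 3 ≤ q ∧ q ≤ w ^ 20 ∧
      ¬ q ∣ Nat.centralBinom k)).card : ℕ) : ℝ) ≤
      ∑ q ∈ (Icc 3 (w ^ 20)).filter Nat.Prime, (((ND q (K + 1)).card : ℕ) : ℝ) := by
    have h2 := (card_le_card hsub).trans card_biUnion_le
    exact_mod_cast h2
  refine h1.trans ((sum_le_sum hb).trans ?_)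
  rw [sum_const, nsmul_eq_mul]
  have h3 : ((((Icc 3 (w ^ 20)).filter Nat.Prime).card : ℕ) : ℝ) ≤ (w : ℝ) ^ 20 := by
    have h4 : ((Icc 3 (w ^ 20)).filter Nat.Prime).card ≤ w ^ 20 := by
      refine (card_filter_le _ _).trans ?_
      rw [Nat.card_Icc]
      omega
    exact_mod_cast h4
  calc ((((Icc 3 (w ^ 20)).filter Nat.Prime).card : ℕ) : ℝ) * (6 * K * (1 / (w : ℝ) ^ 32))
      ≤ (w : ℝ) ^ 20 * (6 * K * (1 / (w : ℝ) ^ 32)) := mul_le_mul_of_nonneg_right h3 (by positivity)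
    _ = K / (w : ℝ) ^ 4 * (6 / (w : ℝ) ^ 8) := by
        field_simp
    _ ≤ K / (w : ℝ) ^ 4 * 1 := by
        refine mul_le_mul_of_nonneg_left ?_ (by positivity)
        rw [div_le_one (by positivity)]
        calc (6 : ℝ) ≤ 2 ^ 8 := by norm_num
          _ ≤ (w : ℝ) ^ 8 := pow_le_pow_left₀ (by norm_num) hw2 8
    _ = K / (w : ℝ) ^ 4 := mul_one _

end Pool.Agent.Helper48.AA
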