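import Mathlib
import Pool.Agent.Helper48.AA.Goals
import Pool.Agent.Helper10.CB.TT

/-!
# Project AA, packet VK: the main factor is large for most k
-/

set_option autoImplicit false

open Finset Filter Topology

open scoped Classical

namespace Pool.Agent.Helper48.AA

open Pool.Agent.Helper10.CB (T pr3 mem_pr3 tt log_ge_one)

theorem tele (z : ℕ) : ∑ p ∈ Ioc 2 z, (1 / ((p : ℝ) - 1) - 1 / (p : ℝ)) ≤ 1 := by
  have h : ∀ n : ℕ, ∑ p ∈ Ioc 2 (2 + n), (1 / ((p : ℝ) - 1) - 1 / (p : ℝ)) = 1 / 2 - 1 / ((2 : ℝ) + n) := by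
    intro n
    induction n with
    | zero => simp
    | succ n ih =>
      rw [← add_assoc, Finset.sum_Ioc_succ_top (by omega), ih]
      push_cast
      have h1 : ((2 : ℝ) + n + 1 - 1) = 2 + n := by ring
      rw [h1]
      ring
  by_cases hz : 2 ≤ z
  · obtain ⟨n, rfl⟩ := Nat.exists_eq_add_of_le hz
    rw [h n]
    have : 0 < 1 / ((2 : ℝ) + n) := by positivity
    linarith
  · rw [Finset.Ioc_eq_empty (by omega), sum_empty]
    exact zero_le_one

theorem prod_ge (z k : ℕ) :
    Real.exp (-(∑ p ∈ PK 2 z k, 1 / (p : ℝ)) - 1) ≤ ∏ p ∈ PK 2 z k, (1 - 1 / (p : ℝ)) := by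
  have h1 : ∀ p ∈ PK 2 z k, Real.exp (-(1 / ((p : ℝ) - 1))) ≤ 1 - 1 / (p : ℝ) := by
    intro p hp
    rw [mem_PK] at hp
    have h3 : (3 : ℝ) ≤ p := by exact_mod_cast hp.1.1
    have h4 := Real.add_one_le_exp (1 / ((p : ℝ) - 1))
    have h5 : (1 - 1 / (p : ℝ)) * (1 / ((p : ℝ) - 1) + 1) = 1 := by
      have : (p : ℝ) - 1 ≠ 0 := by linarith
      have : (p : ℝ) ≠ 0 := by linarith
      field_simp
      ring
    have h6 : 0 < 1 - 1 / (p : ℝ) := by
      rw [sub_pos, div_lt_one (by linarith)]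
      linarith
    rw [Real.exp_neg, inv_le_comm₀ (Real.exp_pos _) h6]
    refine le_trans (le_of_eq ?_) h4
    exact (eq_inv_of_mul_eq_one_right h5).symm
  have h2 : ∑ p ∈ PK 2 z k, (1 / ((p : ℝ) - 1) - 1 / (p : ℝ)) ≤ 1 := by
    refine le_trans (sum_le_sum_of_subset_of_nonneg ?_ ?_) (tele z)
    · intro p hp
      rw [mem_PK] at hp
      rw [mem_Ioc]
      exact hp.1
    · intro p hp _
      rw [mem_Ioc] at hp
      have h3 : (3 : ℝ) ≤ p := by exact_mod_cast hp.1
      rw [sub_nonneg]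
      exact one_div_le_one_div_of_le (by linarith) (by linarith)
  calc Real.exp (-(∑ p ∈ PK 2 z k, 1 / (p : ℝ)) - 1)
      ≤ Real.exp (∑ p ∈ PK 2 z k, -(1 / ((p : ℝ) - 1))) := by
        apply Real.exp_le_exp.2
        rw [sum_sub_distrib] at h2
        rw [sum_neg_distrib]
        linarith
    _ = ∏ p ∈ PK 2 z k, Real.exp (-(1 / ((p : ℝ) - 1))) := Real.exp_sum _ _
    _ ≤ _ := prod_le_prod (fun _ _ => (Real.exp_pos _).le) h1

theorem gVK : StmtVK := by
  obtain ⟨C, hC, htt⟩ := tt
  obtain ⟨C', hC', hme⟩ := Pool.Agent.Helper69.LG.me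
  refine ⟨Real.exp (-1 - C') / (16 * C), by positivity, fun K z N hK hKN hz hzN => ?_⟩
  have hlK := log_ge_one hK
  have hlz := log_ge_one hz
  have hK0 : (0 : ℝ) < K := by exact_mod_cast (by omega : 0 < K)
  have hlKN : Real.log K ≤ Real.log N := Real.log_le_log hK0 (by exact_mod_cast hKN)
  have hlzN : Real.log z ≤ Real.log N :=
    Real.log_le_log (by exact_mod_cast (by omega : 0 < z)) (by exact_mod_cast hzN)
  -- good k
  have hgood : ∀ k : ℕ, Real.exp (T (2 * K) k) ≤ 16 * C →
      Real.exp (-1 - C') / (16 * C) * (Real.log K / Real.log N) ≤ ∏ p ∈ PK 2 z k, (1 - 1 / (p : ℝ)) := by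
    intro k hk
    refine le_trans ?_ (prod_ge z k)
    have hT : 1 / (16 * C) ≤ Real.exp (-(T (2 * K) k)) := by
      rw [Real.exp_neg, one_div]
      exact inv_anti₀ (Real.exp_pos _) hk
    by_cases hz2 : z ≤ 2 * K
    · have h1 : ∑ p ∈ PK 2 z k, 1 / (p : ℝ) ≤ T (2 * K) k := by
        unfold Pool.Agent.Helper10.CB.T
        refine sum_le_sum_of_subset_of_nonneg ?_ fun _ _ _ => by positivity
        intro p hp
        rw [mem_PK] at hp
        rw [mem_filter, mem_pr3]
        exact ⟨⟨⟨by omega, by omega⟩, hp.2.1⟩, hp.2.2⟩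
      calc Real.exp (-1 - C') / (16 * C) * (Real.log K / Real.log N)
          ≤ Real.exp (-1 - C') / (16 * C) * 1 := by
            refine mul_le_mul_of_nonneg_left ?_ (by positivity)
            rw [div_le_one (by linarith)]
            exact hlKN
        _ = Real.exp (-1 - C') * (1 / (16 * C)) := by ring
        _ ≤ Real.exp (-1) * Real.exp (-(T (2 * K) k)) := by
            refine mul_le_mul (Real.exp_le_exp.2 (by linarith)) hT (by positivity) (Real.exp_pos _).le
        _ = Real.exp (-(T (2 * K) k) - 1) := by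
            rw [← Real.exp_add]
            ring_nf
        _ ≤ _ := Real.exp_le_exp.2 (by linarith)
    · push Not at hz2
      have hl2K : 1 ≤ Real.log ((2 * K : ℕ) : ℝ) := log_ge_one (by omega)
      have h2 := hme ((2 * K : ℕ) : ℝ) z (by exact_mod_cast (by omega : 2 ≤ 2 * K))
        (by exact_mod_cast hz2.le)
      have h1 : ∑ p ∈ PK 2 z k, 1 / (p : ℝ) ≤ T (2 * K) k +
          ∑ p ∈ (Icc 1 z).filter (fun p : ℕ => p.Prime ∧ ((2 * K : ℕ) : ℝ) < (p : ℝ)), 1 / (p : ℝ) := by
        rw [← sum_filter_add_sum_filter_not (PK 2 z k) (fun p => p ≤ 2 * K)]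
        refine add_le_add ?_ ?_
        · unfold Pool.Agent.Helper10.CB.T
          refine sum_le_sum_of_subset_of_nonneg ?_ fun _ _ _ => by positivity
          intro p hp
          rw [mem_filter, mem_PK] at hp
          rw [mem_filter, mem_pr3]
          exact ⟨⟨⟨by omega, by omega⟩, hp.1.2.1⟩, hp.1.2.2⟩
        · refine sum_le_sum_of_subset_of_nonneg ?_ fun _ _ _ => by positivity
          intro p hp
          rw [mem_filter, mem_PK] at hp
          rw [mem_filter, mem_Icc]
          exact ⟨⟨by omega, by omega⟩, hp.1.2.1, by exact_mod_cast (by omega : 2 * K < p)⟩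
      have h3 : C' / Real.log ((2 * K : ℕ) : ℝ) ≤ C' := div_le_self hC'.le hl2K
      have h4 : -(∑ p ∈ PK 2 z k, 1 / (p : ℝ)) - 1 ≥
          -(T (2 * K) k) + (-1 - C') - Real.log (Real.log z / Real.log ((2 * K : ℕ) : ℝ)) := by
        linarith
      have h5 : Real.exp (-(T (2 * K) k) + (-1 - C') -
          Real.log (Real.log z / Real.log ((2 * K : ℕ) : ℝ)))
          = Real.exp (-(T (2 * K) k)) * Real.exp (-1 - C') *
            (Real.log ((2 * K : ℕ) : ℝ) / Real.log z) := by
        rw [Real.exp_sub, Real.exp_add, Real.exp_log (by positivity), div_eq_mul_inv, inv_div]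
      refine le_trans ?_ (Real.exp_le_exp.2 h4)
      rw [h5]
      have h6 : Real.log K / Real.log N ≤ Real.log ((2 * K : ℕ) : ℝ) / Real.log z := by
        have h7 : Real.log K ≤ Real.log ((2 * K : ℕ) : ℝ) := by
          apply Real.log_le_log hK0
          exact_mod_cast (by omega : K ≤ 2 * K)
        exact div_le_div₀ (by linarith) h7 (by linarith) hlzN
      calc Real.exp (-1 - C') / (16 * C) * (Real.log K / Real.log N)
          = (1 / (16 * C) * Real.exp (-1 - C')) * (Real.log K / Real.log N) := by ring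
        _ ≤ (Real.exp (-(T (2 * K) k)) * Real.exp (-1 - C')) *
            (Real.log ((2 * K : ℕ) : ℝ) / Real.log z) := by
            refine mul_le_mul ?_ h6 (by positivity) (by positivity)
            exact mul_le_mul_of_nonneg_right hT (Real.exp_pos _).le
  -- counting
  have h1 := htt (2 * K) (by omega)
  set Bd := (Ioc (K / 2) K).filter (fun k => ¬ Real.exp (T (2 * K) k) ≤ 16 * C) with hBd
  have h2 : (Bd.card : ℝ) * (16 * C) ≤ C * ((2 * K : ℕ) : ℝ) := by
    refine le_trans ?_ h1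
    calc (Bd.card : ℝ) * (16 * C) = ∑ k ∈ Bd, (16 * C) := by rw [sum_const, nsmul_eq_mul]
      _ ≤ ∑ k ∈ Bd, Real.exp (T (2 * K) k) := by
          refine sum_le_sum fun k hk => ?_
          rw [hBd, mem_filter] at hk
          push Not at hk
          exact hk.2.le
      _ ≤ ∑ k ∈ range (2 * K), Real.exp (T (2 * K) k) := by
          refine sum_le_sum_of_subset_of_nonneg ?_ fun _ _ _ => (Real.exp_pos _).le
          intro k hk
          rw [hBd, mem_filter, mem_Ioc] at hk
          rw [mem_range]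
          omega
  have h3 : (Bd.card : ℝ) ≤ K / 8 := by
    push_cast at h2
    have : (Bd.card : ℝ) * (16 * C) ≤ (K / 8) * (16 * C) := by linarith
    exact le_of_mul_le_mul_right this (by positivity)
  have h4 : (Ioc (K / 2) K).card ≤ Bd.card + ((Ioc (K / 2) K).filter (fun k =>
      Real.exp (-1 - C') / (16 * C) * (Real.log K / Real.log N) ≤
        ∏ p ∈ PK 2 z k, (1 - 1 / (p : ℝ)))).card := by
    rw [← card_filter_add_card_filter_not (s := Ioc (K / 2) K) (fun k => Real.exp (T (2 * K) k) ≤ 16 * C),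
      add_comm]
    refine add_le_add le_rfl (card_le_card ?_)
    intro k hk
    rw [mem_filter] at hk ⊢
    exact ⟨hk.1, hgood k hk.2⟩
  have h5 : (K : ℝ) / 2 ≤ ((Ioc (K / 2) K).card : ℝ) := by
    rw [Nat.card_Ioc]
    have h6 : K ≤ 2 * (K - K / 2) := by omega
    have h7 : (K : ℝ) ≤ 2 * ((K - K / 2 : ℕ) : ℝ) := by exact_mod_cast h6
    linarith
  have h6 : ((Ioc (K / 2) K).card : ℝ) ≤ Bd.card + (((Ioc (K / 2) K).filter (fun k =>
      Real.exp (-1 - C') / (16 * C) * (Real.log K / Real.log N) ≤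
        ∏ p ∈ PK 2 z k, (1 - 1 / (p : ℝ)))).card : ℝ) := by exact_mod_cast h4
  linarith

end Pool.Agent.Helper48.AA
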