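import Mathlib
import Pool.Agent.Helper48.AA.Goals
import Pool.Agent.Helper67.CR.FW
import Pool.Agent.Helper11.CR.F0

/-!
# Project AA, packet WT: lower bound sieve weights
-/

set_option autoImplicit false

open Finset Filter Topology

open scoped Classical

namespace Pool.Agent.Helper48.AA

theorem gWT : StmtWT := by
  obtain ⟨C, hC, hFW⟩ := Pool.Agent.Helper67.CR.fw Pool.Agent.Helper11.CR.f0
  obtain ⟨b, hb⟩ : ∃ b : ℕ, C * Real.exp (-(b : ℝ)) ≤ 1 / 2 := by
    have h1 : Tendsto (fun b : ℕ => C * Real.exp (-(b : ℝ))) atTop (𝓝 (C * 0)) :=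
      Tendsto.const_mul C (Real.tendsto_exp_neg_atTop_nhds_zero.comp tendsto_natCast_atTop_atTop)
    rw [mul_zero] at h1
    obtain ⟨b, hb⟩ := (h1.eventually (gt_mem_nhds (by norm_num : (0 : ℝ) < 1 / 2))).exists
    exact ⟨b, hb.le⟩
  refine ⟨4 * b + 6, by omega, fun Q z k hz => ?_⟩
  obtain ⟨l, l', h1, h2, h3, h4, -, h5⟩ := hFW z b hz (PK Q z k) (fun p hp => by
    rw [mem_PK] at hp
    exact ⟨hp.2.1, hp.1.2⟩)
  refine ⟨fun d => l d - l' d, ⟨fun d => ?_, fun d hd => ?_⟩, fun n hn => ?_, ?_⟩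
  · have g1 := abs_sub (l d) (l' d)
    have g2 := h1 d
    exact (abs_sub _ _).trans (by linarith [g2.1, g2.2])
  · refine h2 d ?_
    by_contra hcon
    push Not at hcon
    apply hd
    show l d - l' d = 0
    rw [hcon.1, hcon.2, sub_zero]
  · have g := (h3 n hn).2
    rw [sum_sub_distrib]
    linarith
  · have hV : 0 ≤ ∏ p ∈ PK Q z k, (1 - 1 / (p : ℝ)) := prod_nonneg fun p hp => by
      rw [mem_PK] at hp
      have g2 : (2 : ℝ) ≤ p := by exact_mod_cast hp.2.1.two_le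
      have g1 : 1 / (p : ℝ) ≤ 1 := by
        rw [div_le_one (by linarith)]
        linarith
      linarith
    have g : ∑ d ∈ Icc 1 (z ^ (4 * b + 6)), (l d - l' d) / (d : ℝ) =
        ∑ d ∈ Icc 1 (z ^ (4 * b + 6)), l d / d - ∑ d ∈ Icc 1 (z ^ (4 * b + 6)), l' d / d := by
      rw [← sum_sub_distrib]
      exact sum_congr rfl fun d _ => by ring
    rw [g]
    have g3 : C * Real.exp (-(b : ℝ)) * ∏ p ∈ PK Q z k, (1 - 1 / (p : ℝ))
        ≤ 1 / 2 * ∏ p ∈ PK Q z k, (1 - 1 / (p : ℝ)) := mul_le_mul_of_nonneg_right hb hV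
    linarith

end Pool.Agent.Helper48.AA
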