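import Mathlib
import Pool.Agent.Helper48.AA.COa
import Pool.Agent.Helper48.AA.WT
import Pool.Agent.Helper48.AA.LZ
import Pool.Agent.Helper48.AA.VK

/-!
# Project AA, packet CO: the core
-/

set_option autoImplicit false

open Finset Filter Topology

open scoped Classical

namespace Pool.Agent.Helper48.AA

open Pool.Agent.Helper10.CB (P P_ge P_prime log_ge_one)

/-- the window sums -/
theorem E2_le {C2 C3 : ℝ} (hC2 : 0 < C2) (hC3 : 0 < C3)
    (hDG : ∀ (z D X : ℕ) (P : Finset ℕ) (la : ℕ → ℝ) (a : ℕ),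
      3 ≤ z → D ^ 2 ≤ X → (∀ p ∈ P, p.Prime ∧ p ≤ z) → Wt D P la →
      ∑ x ∈ Icc 1 X, (Fx D la a x) ^ 2 ≤ C2 * X * Real.log z ^ 4)
    (hCC : ∀ (w z K D X j : ℕ) (KK : Finset ℕ) (la : ℕ → ℕ → ℝ),
      2 ≤ w → w ^ 20 ≤ z → w ^ 20 ≤ K → D ^ 4 * w ^ 6 ≤ X → KK ⊆ Icc 1 K →
      (∀ k ∈ KK, Wt D (PK (w ^ 20) z k) (la k)) → 1 ≤ j → j < w →
      ∑ x ∈ Icc 1 X, ∑ g ∈ Icc 1 (w ^ 2),
          (cc KK (fun k x => Fx D (la k) (Nat.centralBinom k) x) j x (x + g)) ^ 2
        ≤ C3 * K ^ 2 * X * w ^ 2 * Real.log z ^ 17 / w ^ 6)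
    (hWN : StmtWN) (N K w z D X : ℕ) (la : ℕ → ℕ → ℝ) (Mg : Finset ℕ)
    (hw : 2 ≤ w) (hz : 3 ≤ z) (hwz : w ^ 20 ≤ z) (hwK : w ^ 20 ≤ K) (hD2 : D ^ 2 ≤ X)
    (hD4 : D ^ 4 * w ^ 6 ≤ X) (hX : P (N + w) ≤ X)
    (hla : ∀ k, Wt D (PK (w ^ 20) z k) (la k))
    (hMg : ∀ M ∈ Mg, 1 ≤ M ∧ M ≤ N ∧ P (M + w) ≤ P M + w ^ 2) :
    ∑ M ∈ Mg, ∑ t ∈ range (K + w),
      (GM (KK K w) (fun k x => Fx D (la k) (Nat.centralBinom k) x) w M t) ^ 2
      ≤ (C2 + 1 + C3) * (w * K * X * Real.log z ^ 17) := by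
  have hlz := log_ge_one hz
  have hw0 : (0 : ℝ) < w := by exact_mod_cast (by omega : 0 < w)
  have hKn : 0 < K := lt_of_lt_of_le (Nat.pow_pos (by omega)) hwK
  have hK0 : (0 : ℝ) < K := by exact_mod_cast hKn
  have hX0 : (0 : ℝ) ≤ X := Nat.cast_nonneg X
  have h1 := hWN (KK K w) (fun k x => Fx D (la k) (Nat.centralBinom k) x) w K N X (w ^ 2) Mg
    (KK_sub K w) hX hMg
  refine h1.trans ?_
  have hA : ∑ x ∈ Icc 1 X, ∑ k ∈ KK K w, (Fx D (la k) (Nat.centralBinom k) x) ^ 2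
      ≤ K * (C2 * X * Real.log z ^ 4) := by
    rw [sum_comm]
    have g1 : ∀ k ∈ KK K w, ∑ x ∈ Icc 1 X, (Fx D (la k) (Nat.centralBinom k) x) ^ 2
        ≤ C2 * X * Real.log z ^ 4 := by
      intro k _
      refine hDG z D X (PK (w ^ 20) z k) (la k) _ hz hD2 ?_ (hla k)
      intro p hp
      rw [mem_PK] at hp
      exact ⟨hp.2.1, hp.1.2⟩
    refine (sum_le_sum g1).trans ?_
    rw [sum_const, nsmul_eq_mul]
    refine mul_le_mul_of_nonneg_right ?_ (by positivity)
    have g2 := card_le_card (KK_sub K w)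
    rw [Nat.card_Icc, Nat.add_sub_cancel] at g2
    exact_mod_cast g2
  have hB : ∀ j ∈ Ico 1 w, ∑ x ∈ Icc 1 X, ∑ g ∈ Icc 1 (w ^ 2),
      |cc (KK K w) (fun k x => Fx D (la k) (Nat.centralBinom k) x) j x (x + g)|
      ≤ 1 / 2 * (1 + C3) * (K * X * Real.log z ^ 17 / w) := by
    intro j hj
    rw [mem_Ico] at hj
    have g1 := hCC w z K D X j (KK K w) la hw hwz hwK hD4 (KK_sub K w) (fun k _ => hla k) hj.1 hj.2
    set f := cc (KK K w) (fun k x => Fx D (la k) (Nat.centralBinom k) x) j with hf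
    set α : ℝ := K / w ^ 3 with hα
    have hα0 : 0 < α := by positivity
    have g2 : ∀ y : ℝ, |y| ≤ 1 / 2 * α + 1 / (2 * α) * y ^ 2 := by
      intro y
      have g3 : 0 ≤ (|y| - α) ^ 2 := sq_nonneg _
      have g4 : |y| ^ 2 = y ^ 2 := sq_abs y
      have g5 : 1 / 2 * α + 1 / (2 * α) * y ^ 2 - |y| = (|y| - α) ^ 2 / (2 * α) := by
        rw [← g4]
        field_simp
        ring
      have g6 : 0 ≤ (|y| - α) ^ 2 / (2 * α) := by positivity
      linarith
    have g3 : ∑ x ∈ Icc 1 X, ∑ g ∈ Icc 1 (w ^ 2), |f x (x + g)|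
        ≤ 1 / 2 * α * (X * w ^ 2) + 1 / (2 * α) * ∑ x ∈ Icc 1 X, ∑ g ∈ Icc 1 (w ^ 2), (f x (x + g)) ^ 2 := by
      refine (sum_le_sum fun x _ => sum_le_sum fun g _ => g2 (f x (x + g))).trans (le_of_eq ?_)
      simp only [sum_add_distrib, sum_const, Nat.card_Icc, Nat.add_sub_cancel, nsmul_eq_mul, mul_sum]
      push_cast
      ring
    refine g3.trans ?_
    have g4 : 1 / (2 * α) * ∑ x ∈ Icc 1 X, ∑ g ∈ Icc 1 (w ^ 2), (f x (x + g)) ^ 2
        ≤ 1 / (2 * α) * (C3 * K ^ 2 * X * w ^ 2 * Real.log z ^ 17 / w ^ 6) :=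
      mul_le_mul_of_nonneg_left g1 (by positivity)
    have g5 : 1 / (2 * α) * (C3 * K ^ 2 * X * w ^ 2 * Real.log z ^ 17 / w ^ 6)
        = 1 / 2 * C3 * (K * X * Real.log z ^ 17 / w) := by
      rw [hα]
      field_simp
    have g6 : 1 / 2 * α * (X * w ^ 2) = 1 / 2 * (K * X / w) := by
      rw [hα]
      field_simp
    have g7 : (K : ℝ) * X / w ≤ K * X * Real.log z ^ 17 / w := by
      apply div_le_div_of_nonneg_right _ hw0.le
      have : 1 ≤ Real.log z ^ 17 := one_le_pow₀ hlz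
      have h0 : 0 ≤ (K : ℝ) * X := by positivity
      nlinarith
    rw [g5] at g4
    rw [g6]
    linarith
  have hC : ∑ j ∈ Ico 1 w, ∑ x ∈ Icc 1 X, ∑ g ∈ Icc 1 (w ^ 2),
      |cc (KK K w) (fun k x => Fx D (la k) (Nat.centralBinom k) x) j x (x + g)|
      ≤ 1 / 2 * (1 + C3) * (K * X * Real.log z ^ 17) := by
    refine (sum_le_sum hB).trans ?_
    rw [sum_const, nsmul_eq_mul, Nat.card_Ico]
    have g1 : (((w - 1 : ℕ) : ℕ) : ℝ) ≤ w := by exact_mod_cast Nat.sub_le w 1
    calc ((w - 1 : ℕ) : ℝ) * (1 / 2 * (1 + C3) * (K * X * Real.log z ^ 17 / w))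
        ≤ w * (1 / 2 * (1 + C3) * (K * X * Real.log z ^ 17 / w)) :=
          mul_le_mul_of_nonneg_right g1 (by positivity)
      _ = 1 / 2 * (1 + C3) * (K * X * Real.log z ^ 17) := by field_simp
  have hD : (w : ℝ) * (K * (C2 * X * Real.log z ^ 4)) ≤ C2 * (w * K * X * Real.log z ^ 17) := by
    have g1 : Real.log z ^ 4 ≤ Real.log z ^ 17 := pow_le_pow_right₀ hlz (by norm_num)
    calc (w : ℝ) * (K * (C2 * X * Real.log z ^ 4)) = (C2 * w * K * X) * Real.log z ^ 4 := by ring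
      _ ≤ (C2 * w * K * X) * Real.log z ^ 17 := mul_le_mul_of_nonneg_left g1 (by positivity)
      _ = _ := by ring
  calc (w : ℝ) * ∑ x ∈ Icc 1 X, ∑ k ∈ KK K w, (Fx D (la k) (Nat.centralBinom k) x) ^ 2 +
        2 * w * ∑ j ∈ Ico 1 w, ∑ x ∈ Icc 1 X, ∑ g ∈ Icc 1 (w ^ 2),
          |cc (KK K w) (fun k x => Fx D (la k) (Nat.centralBinom k) x) j x (x + g)|
      ≤ w * (K * (C2 * X * Real.log z ^ 4)) + 2 * w * (1 / 2 * (1 + C3) * (K * X * Real.log z ^ 17)) := by
        refine add_le_add (mul_le_mul_of_nonneg_left hA hw0.le) ?_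
        exact mul_le_mul_of_nonneg_left hC (by positivity)
    _ ≤ C2 * (w * K * X * Real.log z ^ 17) + (1 + C3) * (w * K * X * Real.log z ^ 17) := by
        refine add_le_add hD (le_of_eq (by ring))
    _ = (C2 + 1 + C3) * (w * K * X * Real.log z ^ 17) := by ring

theorem gCO (hDG : StmtDG) (hCC : StmtCC) (hWN : StmtWN) (hGP : StmtGP) : StmtCO := by
  obtain ⟨E0, hE0, hWT⟩ := gWT
  obtain ⟨C2, hC2, hDG⟩ := hDG
  obtain ⟨C3, hC3, hCC⟩ := hCC
  obtain ⟨c1, hc1, hVK⟩ := gVK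
  set C4 := C2 + 1 + C3 with hC4
  have hC40 : 0 < C4 := by positivity
  refine ⟨4 * E0 + 2, 20, c1 / 512, 3 + 96 * 32 * (256 * C4 / c1 ^ 2 + 1), by omega, by positivity,
    by positivity, fun N K w z hN hw hlK hKN hzN hwz => ?_⟩
  -- parameters
  have hw0 : (0 : ℝ) < w := by exact_mod_cast (by omega : 0 < w)
  have hw2 : (2 : ℝ) ≤ w := by exact_mod_cast hw
  have hlw : 0 < Real.log w := Real.log_pos (by linarith)
  have hl2 : Real.log 2 ≤ Real.log w := Real.log_le_log (by norm_num) hw2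
  have hl2' := Real.log_two_gt_d9
  have hlK0 : 0 < Real.log K := lt_of_lt_of_le (by positivity) hlK
  have hK1 : 1 < K := by
    by_contra h
    push Not at h
    interval_cases K
    · simp at hlK0
    · simp at hlK0
  have hKr : (1 : ℝ) < K := by exact_mod_cast hK1
  have hwK : w ^ 20 ≤ K := by
    have h1 : Real.log ((w : ℝ) ^ 20) ≤ Real.log K := by
      rw [Real.log_pow]
      push_cast
      nlinarith
    have h2 := (Real.log_le_log_iff (by positivity) (by linarith)).1 h1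
    exact_mod_cast h2
  have hw19 : 2 ^ 19 * w ≤ w ^ 20 := by
    calc 2 ^ 19 * w ≤ w ^ 19 * w := Nat.mul_le_mul_right _ (Nat.pow_le_pow_left hw 19)
      _ = w ^ 20 := by ring
  have hK32 : 32 * w ≤ K := by omega
  have hwleK : w ≤ K := by omega
  have hwlez : w ≤ z := by omega
  have hz3 : 3 ≤ z := by omega
  have hK3 : 3 ≤ K := by omega
  have hz2N : z ^ 2 ≤ N := le_trans (Nat.pow_le_pow_right (by omega) (by omega)) hzN
  have hzleN : z ≤ N := le_trans (by nlinarith) hz2N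
  have hKleN : K ≤ N := le_trans (by nlinarith) hKN
  have hwleN : w ≤ N := hwleK.trans hKleN
  set D := z ^ E0 with hD
  set X := P (N + w) with hX
  have hNX : N ≤ X := by
    have := P_ge (show 1 ≤ N + w by omega)
    omega
  have hD4 : D ^ 4 * w ^ 6 ≤ X := by
    refine le_trans ?_ (hzN.trans hNX)
    calc D ^ 4 * w ^ 6 ≤ z ^ (4 * E0) * z := by
          refine Nat.mul_le_mul ?_ ?_
          · rw [hD, ← pow_mul, mul_comm E0 4]
          · refine le_trans (Nat.pow_le_pow_right (by omega) (by norm_num)) hwz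
      _ = z ^ (4 * E0 + 1) := by ring
      _ ≤ z ^ (4 * E0 + 2) := Nat.pow_le_pow_right (by omega) (by omega)
  have hDpos : 1 ≤ D := Nat.one_le_pow _ _ (by omega)
  have hD2 : D ^ 2 ≤ X := by
    refine le_trans ?_ hD4
    calc D ^ 2 ≤ D ^ 4 := Nat.pow_le_pow_right hDpos (by norm_num)
      _ ≤ D ^ 4 * w ^ 6 := Nat.le_mul_of_pos_right _ (Nat.pow_pos (by omega))
  have hlN : 1 ≤ Real.log N := log_ge_one hN
  have hlK1 : 1 ≤ Real.log K := log_ge_one hK3
  have hlz : 1 ≤ Real.log z := log_ge_one hz3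
  have hlzN : Real.log z ≤ Real.log N :=
    Real.log_le_log (by exact_mod_cast (by omega : 0 < z)) (by exact_mod_cast hzleN)
  have hN0 : (0 : ℝ) < N := by exact_mod_cast (by omega : 0 < N)
  have hK0 : (0 : ℝ) < K := by linarith
  set ℓ := Real.log K / Real.log N with hℓ
  have hℓ0 : 0 < ℓ := by positivity
  -- weights
  choose la hla1 hla2 hla3 using fun k => hWT (w ^ 20) z k (by omega)
  set F : ℕ → ℕ → ℝ := fun k x => Fx D (la k) (Nat.centralBinom k) x with hF
  set V : ℕ → ℝ := fun k => ∑ d ∈ Icc 1 D, la k d / d with hV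
  set Ft := (Ioc (K / 2) K).filter (fun k => c1 * (Real.log K / Real.log N) ≤
    ∏ p ∈ PK 2 z k, (1 - 1 / (p : ℝ))) with hFt
  set v : ℝ := c1 / 2 * ℓ with hv
  have hv0 : 0 < v := by positivity
  have hfac : ∀ {Q k p : ℕ}, p ∈ PK Q z k → 0 ≤ 1 - 1 / (p : ℝ) ∧ 1 - 1 / (p : ℝ) ≤ 1 := by
    intro Q k p hp
    rw [mem_PK] at hp
    have g2 : (2 : ℝ) ≤ p := by exact_mod_cast hp.2.1.two_le
    have g1 : 1 / (p : ℝ) ≤ 1 := by
      rw [div_le_one (by linarith)]
      linarith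
    have g3 : 0 ≤ 1 / (p : ℝ) := by positivity
    constructor <;> linarith
  have hV0 : ∀ k, 0 ≤ V k := fun k => le_trans
    (mul_nonneg (by norm_num) (prod_nonneg fun p hp => (hfac hp).1)) (hla3 k)
  have hVt : ∀ k ∈ Ft, v ≤ V k := by
    intro k hk
    rw [hFt, mem_filter] at hk
    have g1 : PK (w ^ 20) z k ⊆ PK 2 z k := by
      intro p hp
      rw [mem_PK] at hp ⊢
      refine ⟨⟨?_, hp.1.2⟩, hp.2⟩
      omega
    have g2 : ∏ p ∈ PK 2 z k, (1 - 1 / (p : ℝ)) ≤ ∏ p ∈ PK (w ^ 20) z k, (1 - 1 / (p : ℝ)) := by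
      rw [← prod_sdiff g1]
      exact mul_le_of_le_one_left (prod_nonneg fun p hp => (hfac hp).1)
        (prod_le_one (fun p hp => (hfac (Finset.sdiff_subset hp)).1)
          (fun p hp => (hfac (Finset.sdiff_subset hp)).2))
    have g3 := hla3 k
    have g4 := hk.2
    show v ≤ ∑ d ∈ Icc 1 D, la k d / d
    rw [hv]
    linarith
  -- windows
  have hBK := gBK w K hw hlK
  set Ts := (Ioc (K / 2 + w) K).filter (fun t => (∀ i < w, t - i ∉ Bd K w) ∧
    w ≤ 4 * ((range w).filter (fun i => t - i ∈ Ft)).card) with hTs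
  have hTsc : (K : ℝ) / 16 ≤ (Ts.card : ℝ) := by
    refine tset_card K w Ft (Bd K w) (filter_subset _ _) ?_ hBK hw hK32
    exact hVK K z N hK3 hKleN hz3 hzleN
  have hTs1 : Ts ⊆ Ioc (K / 2 + w) K := filter_subset _ _
  set gap := (Icc 1 N).filter (fun M => P M + w ^ 2 < P (M + w)) with hgap
  set Mg := (Icc 1 N).filter (fun M => ¬ P M + w ^ 2 < P (M + w)) with hMg
  have hE2 := E2_le hC2 hC3 hDG hCC hWN N K w z D X la Mg hw hz3 hwz hwK hD2 hD4 le_rfl hla1
    (by
      intro M hM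
      rw [hMg, mem_filter, mem_Icc] at hM
      exact ⟨hM.1.1, hM.1.2, by omega⟩)
  set Ex := (Icc 1 N).filter (fun n => ((((Ioc (K / 2) K).filter (fun k => Good z n k)).card : ℕ) : ℝ)
      < c1 / 512 * (K * (Real.log K / Real.log N))) with hEx
  have key : ∀ n ∈ Ex, 2 * K + z < n → (K : ℝ) / 32 ≤ ((Ts.filter (fun t => n - t ∈ gap ∨
      (n - t ∈ Mg ∧ (w / 8 * v) ^ 2 ≤ (GM (KK K w) F w (n - t) t) ^ 2))).card : ℝ) := by
    intro n hn hn0
    rw [hEx, mem_filter, mem_Icc] at hn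
    obtain ⟨⟨hn1, hnN⟩, hnc⟩ := hn
    set Gd := (Ioc (K / 2) K).filter (fun k => Good z n k) with hGd
    have g1 := per_n K w Ts Gd v hv0 hw (by omega) hTs1 hTsc (by
      refine lt_of_lt_of_le hnc (le_of_eq ?_)
      rw [hv]
      ring)
    refine g1.trans ?_
    have g2 : Ts.filter (fun t => ((((range w).filter (fun i => t - i ∈ Gd)).card : ℕ) : ℝ)
        < w / 8 * v) ⊆ Ts.filter (fun t => n - t ∈ gap ∨
      (n - t ∈ Mg ∧ (w / 8 * v) ^ 2 ≤ (GM (KK K w) F w (n - t) t) ^ 2)) := by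
      intro t ht
      rw [mem_filter] at ht ⊢
      obtain ⟨ht1, ht2⟩ := ht
      refine ⟨ht1, ?_⟩
      have ht3 := hTs1 ht1
      rw [mem_Ioc] at ht3
      rw [hTs, mem_filter] at ht1
      obtain ⟨-, ht4, ht5⟩ := ht1
      by_cases hg : P (n - t) + w ^ 2 < P (n - t + w)
      · left
        rw [hgap, mem_filter, mem_Icc]
        exact ⟨⟨by omega, by omega⟩, hg⟩
      · right
        refine ⟨by
          rw [hMg, mem_filter, mem_Icc]
          exact ⟨⟨by omega, by omega⟩, hg⟩, ?_⟩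
        have hsum : GM (KK K w) F w (n - t) t ≤
            ∑ i ∈ range w, ((if t - i ∈ Gd then (1 : ℝ) else 0) - V (t - i)) := by
          unfold GM
          refine sum_le_sum fun i hi => ?_
          rw [mem_range] at hi
          have hk : t - i ∈ KK K w := mem_KK_of (by omega) (by omega) (ht4 i hi)
          rw [if_pos ⟨by omega, hk⟩]
          have e1 : n - t + i = n - (t - i) := by omega
          rw [e1]
          have h1 := Fx_le (hla1 (t - i)) (a := Nat.centralBinom (t - i)) (x := P (n - (t - i)))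
            (by
              have := P_ge (show 1 ≤ n - (t - i) by omega)
              omega) (hla2 (t - i) _ (by
              have := P_ge (show 1 ≤ n - (t - i) by omega)
              omega))
          refine h1.trans ?_
          refine sub_le_sub_right ?_ _
          by_cases hh : ∀ p ∈ PK (w ^ 20) z (t - i), ¬ p ∣ P (n - (t - i)) + Nat.centralBinom (t - i)
          · rw [if_pos hh, if_pos]
            rw [hGd, mem_filter, mem_Ioc]
            exact ⟨⟨by omega, by omega⟩, good_of hk (by omega) (by omega) hh⟩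
          · rw [if_neg hh]
            split_ifs
            · exact zero_le_one
            · exact le_rfl
        have hs1 : ∑ i ∈ range w, ((if t - i ∈ Gd then (1 : ℝ) else 0) - V (t - i))
            = ((((range w).filter (fun i => t - i ∈ Gd)).card : ℕ) : ℝ) - ∑ i ∈ range w, V (t - i) := by
          rw [sum_sub_distrib]
          congr 1
          rw [card_filter]
          push_cast
          rfl
        have hs2 : (w : ℝ) / 4 * v ≤ ∑ i ∈ range w, V (t - i) := by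
          calc (w : ℝ) / 4 * v ≤ ((((range w).filter (fun i => t - i ∈ Ft)).card : ℕ) : ℝ) * v := by
                refine mul_le_mul_of_nonneg_right ?_ hv0.le
                have : (w : ℝ) ≤ 4 * ((((range w).filter (fun i => t - i ∈ Ft)).card : ℕ) : ℝ) := by
                  exact_mod_cast ht5
                linarith
            _ = ∑ i ∈ (range w).filter (fun i => t - i ∈ Ft), v := by rw [sum_const, nsmul_eq_mul]
            _ ≤ ∑ i ∈ (range w).filter (fun i => t - i ∈ Ft), V (t - i) :=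
                sum_le_sum fun i hi => hVt _ (mem_filter.1 hi).2
            _ ≤ ∑ i ∈ range w, V (t - i) :=
                sum_le_sum_of_subset_of_nonneg (filter_subset _ _) fun i _ _ => hV0 _
        have hs3 : GM (KK K w) F w (n - t) t ≤ -(w / 8 * v) := by
          have hs4 : (w : ℝ) / 4 * v = 2 * (w / 8 * v) := by ring
          linarith
        have hpos : 0 ≤ (w : ℝ) / 8 * v := by positivity
        nlinarith
    exact_mod_cast card_le_card g2
  have hcount := count_core N K w (2 * K + z) Ex Ts gap Mg (GM (KK K w) F w) ((w / 8 * v) ^ 2)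
    (C4 * (w * K * X * Real.log z ^ 17)) (by positivity) (by omega)
    (fun t ht => by
      have := hTs1 ht
      rw [mem_Ioc] at this ⊢
      omega) (by omega) (filter_subset _ _) key hE2 (by omega)
  refine hcount.trans ?_
  -- final estimates
  have hX1 : (X : ℝ) ≤ 96 * N * Real.log N := P_le' hN hwleN
  have hX0 : (0 : ℝ) ≤ X := Nat.cast_nonneg X
  have hgapc : (gap.card : ℝ) ≤ X / w := by
    have g1 := hGP N w (w ^ 2)
    have g2 : (gap.card : ℝ) * (w : ℝ) ^ 2 ≤ w * X := by exact_mod_cast g1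
    rw [le_div_iff₀ hw0]
    have g3 : (gap.card : ℝ) * w * w ≤ X * w := by nlinarith
    exact le_of_mul_le_mul_right g3 hw0
  have hn0 : ((2 * K + z : ℕ) : ℝ) ≤ 3 * (N / w) := by
    have g1 : (K : ℝ) ≤ N / w := by
      rw [le_div_iff₀ hw0]
      have : K * w ≤ N := le_trans (by nlinarith) hKN
      exact_mod_cast this
    have g2 : (z : ℝ) ≤ N / w := by
      rw [le_div_iff₀ hw0]
      have : z * w ≤ N := le_trans (by nlinarith) hz2N
      exact_mod_cast this
    push_cast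
    linarith
  have hℓ1 : 1 / Real.log N ≤ ℓ := div_le_div_of_nonneg_right hlK1 (by linarith)
  have hℓ2 : 1 ≤ ℓ * Real.log N := by
    rw [div_le_iff₀ (by linarith)] at hℓ1
    exact hℓ1
  have hE : C4 * (w * K * X * Real.log z ^ 17) / (w / 8 * v) ^ 2
      ≤ 256 * C4 / c1 ^ 2 * (K * X * Real.log N ^ 19 / w) := by
    rw [div_le_iff₀ (by positivity)]
    have g1 : Real.log z ^ 17 ≤ Real.log N ^ 17 := pow_le_pow_left₀ (by linarith) hlzN 17
    have g2 : 256 * C4 / c1 ^ 2 * (K * X * Real.log N ^ 19 / w) * (w / 8 * v) ^ 2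
        = (C4 * (w * K * X * Real.log N ^ 17)) * (ℓ * Real.log N) ^ 2 := by
      rw [hv]
      field_simp
      ring
    rw [g2]
    have g3 : 1 ≤ (ℓ * Real.log N) ^ 2 := one_le_pow₀ hℓ2
    calc C4 * (w * K * X * Real.log z ^ 17) ≤ C4 * (w * K * X * Real.log N ^ 17) := by
          refine mul_le_mul_of_nonneg_left ?_ hC40.le
          exact mul_le_mul_of_nonneg_left g1 (by positivity)
      _ ≤ _ := le_mul_of_one_le_right (by positivity) g3
  have hlN19 : 1 ≤ Real.log N ^ 19 := one_le_pow₀ hlN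
  have hlN20 : 1 ≤ Real.log N ^ 20 := one_le_pow₀ hlN
  have hfin : 32 / (K : ℝ) * (C4 * (w * K * X * Real.log z ^ 17) / (w / 8 * v) ^ 2 + K * gap.card)
      ≤ 96 * 32 * (256 * C4 / c1 ^ 2 + 1) * (N * Real.log N ^ 20 / w) := by
    calc 32 / (K : ℝ) * (C4 * (w * K * X * Real.log z ^ 17) / (w / 8 * v) ^ 2 + K * gap.card)
        ≤ 32 / (K : ℝ) * (256 * C4 / c1 ^ 2 * (K * X * Real.log N ^ 19 / w) + K * (X / w)) := by
          refine mul_le_mul_of_nonneg_left ?_ (by positivity)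
          exact add_le_add hE (mul_le_mul_of_nonneg_left hgapc hK0.le)
      _ = 32 * (256 * C4 / c1 ^ 2 * (X * Real.log N ^ 19 / w) + X / w) := by
          field_simp
      _ ≤ 32 * (256 * C4 / c1 ^ 2 * (X * Real.log N ^ 19 / w) + X * Real.log N ^ 19 / w) := by
          refine mul_le_mul_of_nonneg_left ?_ (by norm_num)
          refine add_le_add le_rfl ?_
          apply div_le_div_of_nonneg_right _ hw0.le
          exact le_mul_of_one_le_right hX0 hlN19
      _ = 32 * (256 * C4 / c1 ^ 2 + 1) * (X * Real.log N ^ 19 / w) := by ring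
      _ ≤ 32 * (256 * C4 / c1 ^ 2 + 1) * ((96 * N * Real.log N) * Real.log N ^ 19 / w) := by
          refine mul_le_mul_of_nonneg_left ?_ (by positivity)
          apply div_le_div_of_nonneg_right _ hw0.le
          exact mul_le_mul_of_nonneg_right hX1 (by positivity)
      _ = 96 * 32 * (256 * C4 / c1 ^ 2 + 1) * (N * Real.log N ^ 20 / w) := by ring
  have hlast : 3 * ((N : ℝ) / w) ≤ 3 * (N * Real.log N ^ 20 / w) := by
    refine mul_le_mul_of_nonneg_left ?_ (by norm_num)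
    apply div_le_div_of_nonneg_right _ hw0.le
    exact le_mul_of_one_le_right hN0.le hlN20
  calc ((2 * K + z : ℕ) : ℝ) + 32 / (K : ℝ) * (C4 * (w * K * X * Real.log z ^ 17) / (w / 8 * v) ^ 2
        + K * gap.card)
      ≤ 3 * (N * Real.log N ^ 20 / w)
        + 96 * 32 * (256 * C4 / c1 ^ 2 + 1) * (N * Real.log N ^ 20 / w) := by linarith
    _ = (3 + 96 * 32 * (256 * C4 / c1 ^ 2 + 1)) * (N * Real.log N ^ 20 / w) := by ring

end Pool.Agent.Helper48.AA
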