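import Mathlib
import Pool.Agent.Helper48.AA.PL

/-!
# Project AA: the theorem from the core
-/

set_option autoImplicit false

open Finset Filter Topology

open scoped Classical

namespace Pool.Agent.Helper48.AA

open Pool.Agent.Helper10.CB (P P_ge P_prime log_ge_one)

theorem gFIN (hCO : StmtCO) : StmtFIN := by
  obtain ⟨E, A, c1, C1, hE, hc1, hC1, hCO⟩ := hCO
  set δ := Real.log (Real.log 3) with hδ
  have hl3 : 1 < Real.log 3 := by
    rw [Real.lt_log_iff_exp_lt (by norm_num)]
    have := Real.exp_one_lt_d9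
    linarith
  have hδ0 : 0 < δ := Real.log_pos hl3
  set B : ℝ := max 0 (Real.log (2 * C1)) with hB
  have hB0 : 0 ≤ B := le_max_left _ _
  have hEr : (1 : ℝ) ≤ E := by exact_mod_cast hE
  have hA0 : (0 : ℝ) ≤ A := Nat.cast_nonneg A
  set c : ℝ := min c1 (min (1 / 80) (1 / (2 * E))) with hc
  have hc0 : 0 < c := by
    rw [hc]
    refine lt_min hc1 (lt_min (by norm_num) (by positivity))
  have hcc1 : c ≤ c1 := min_le_left _ _
  have hc80 : c ≤ 1 / 80 := (min_le_right _ _).trans (min_le_left _ _)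
  have hcE : c ≤ 1 / (2 * E) := (min_le_right _ _).trans (min_le_right _ _)
  set s : ℝ := 80 * (A + B + 1) with hs
  have hs80 : 80 ≤ s := by rw [hs]; linarith
  refine ⟨c, s ^ 2 + 4 * E ^ 2 / δ ^ 2, hc0, by positivity, fun N K hN hK hKN => ?_⟩
  set C : ℝ := s ^ 2 + 4 * E ^ 2 / δ ^ 2 with hC
  have hN3 : (3 : ℝ) ≤ N := by exact_mod_cast hN
  have hN0 : (0 : ℝ) < N := by linarith
  have hlN : 1 ≤ Real.log N := log_ge_one hN
  set y := Real.log (Real.log N) with hy
  have hyδ : δ ≤ y := by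
    rw [hδ, hy]
    apply Real.log_le_log (by linarith)
    exact Real.log_le_log (by norm_num) hN3
  have hy0 : 0 < y := by linarith
  have hKr0 : (0 : ℝ) < K := lt_of_lt_of_le (Real.exp_pos _) hK
  have hlK : C * y ^ 2 ≤ Real.log K := by
    rw [Real.le_log_iff_exp_le hKr0]
    exact hK
  have hKNr : (K : ℝ) ^ 2 ≤ N := by exact_mod_cast hKN
  have hlK2 : 2 * Real.log K ≤ Real.log N := by
    have h := Real.log_le_log (by positivity) hKNr
    rw [Real.log_pow] at h
    push_cast at h
    exact h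
  have hlK0 : 0 ≤ Real.log K := le_trans (by positivity) hlK
  -- N is large
  have hNbig : 4 * (E : ℝ) ^ 2 ≤ Real.log N := by
    have h1 : 4 * (E : ℝ) ^ 2 ≤ C * y ^ 2 := by
      have h2 : δ ^ 2 ≤ y ^ 2 := pow_le_pow_left₀ hδ0.le hyδ 2
      calc 4 * (E : ℝ) ^ 2 = 4 * E ^ 2 / δ ^ 2 * δ ^ 2 := by field_simp
        _ ≤ C * y ^ 2 := by
            refine mul_le_mul ?_ h2 (by positivity) (by positivity)
            rw [hC]
            have : 0 ≤ s ^ 2 := sq_nonneg s
            linarith
    linarith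
  have hy1 : 1 ≤ y := by
    rw [hy, Real.le_log_iff_exp_le (by linarith)]
    have := Real.exp_one_lt_d9
    have h : (1 : ℝ) ≤ (E : ℝ) ^ 2 := one_le_pow₀ hEr
    linarith
  set R := √(Real.log K) with hR
  have hR0 : 0 ≤ R := Real.sqrt_nonneg _
  have hR2 : R ^ 2 = Real.log K := Real.sq_sqrt hlK0
  have hRs : s * y ≤ R := by
    rw [hR]
    apply Real.le_sqrt_of_sq_le
    have : s ^ 2 * y ^ 2 ≤ C * y ^ 2 := by
      refine mul_le_mul_of_nonneg_right ?_ (by positivity)
      rw [hC]
      have : 0 ≤ 4 * (E : ℝ) ^ 2 / δ ^ 2 := by positivity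
      linarith
    calc (s * y) ^ 2 = s ^ 2 * y ^ 2 := by ring
      _ ≤ C * y ^ 2 := this
      _ ≤ _ := hlK
  have hR80 : 80 ≤ R := by
    have : s * 1 ≤ s * y := mul_le_mul_of_nonneg_left hy1 (by linarith)
    linarith
  -- w
  set ew := Real.exp (R / 40) with hew
  have hew2 : 2 ≤ ew := by
    have := Real.add_one_le_exp (R / 40)
    linarith
  set w := ⌊ew⌋₊ with hw
  have hw2 : 2 ≤ w := Nat.le_floor (by exact_mod_cast hew2)
  have hwle : (w : ℝ) ≤ ew := Nat.floor_le (by linarith)
  have hwge : ew / 2 ≤ w := by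
    have := Nat.lt_floor_add_one ew
    rw [← hw] at this
    linarith
  have hw0 : (0 : ℝ) < w := by exact_mod_cast (by omega : 0 < w)
  have hlw : Real.log w ≤ R / 40 := by
    rw [Real.log_le_iff_le_exp hw0]
    exact hwle
  have hlw0 : 0 ≤ Real.log w := Real.log_natCast_nonneg w
  have hw1600 : 1600 * Real.log w ^ 2 ≤ Real.log K := by
    have h := pow_le_pow_left₀ hlw0 hlw 2
    have h2 : (R / 40) ^ 2 = R ^ 2 / 1600 := by ring
    rw [h2, hR2] at h
    linarith
  -- z
  set ez := (N : ℝ) ^ (1 / (E : ℝ)) with hez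
  have hE0 : (0 : ℝ) < E := by linarith
  have hez1 : ez = Real.exp (Real.log N / E) := by
    rw [hez, Real.rpow_def_of_pos hN0]
    congr 1
    ring
  set u := √(Real.log N) with hu
  have hu2 : u ^ 2 = Real.log N := Real.sq_sqrt (by linarith)
  have hu0 : 0 ≤ u := Real.sqrt_nonneg _
  have hu2E : 2 * E ≤ u := by
    rw [hu]
    apply Real.le_sqrt_of_sq_le
    have h : (2 * (E : ℝ)) ^ 2 = 4 * (E : ℝ) ^ 2 := by ring
    rw [h]
    exact hNbig
  have hRu : R ≤ u := Real.sqrt_le_sqrt (by linarith)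
  have hlNE : 2 * u ≤ Real.log N / E := by
    rw [le_div_iff₀ hE0, ← hu2]
    calc 2 * u * E = u * (2 * E) := by ring
      _ ≤ u * u := mul_le_mul_of_nonneg_left hu2E hu0
      _ = u ^ 2 := by ring
  have hl2 := Real.log_two_lt_d9
  have hexp : Real.exp (R / 2) ≤ ez / 2 := by
    have h1 : R / 2 + Real.log 2 ≤ Real.log N / E := by linarith
    have h2 := Real.exp_le_exp.2 h1
    rw [Real.exp_add, Real.exp_log (by norm_num)] at h2
    rw [hez1]
    linarith
  have hez2 : 2 ≤ ez := by
    have : 1 ≤ Real.exp (R / 2) := Real.one_le_exp (by linarith)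
    linarith
  set z := ⌊ez⌋₊ with hz
  have hzle : (z : ℝ) ≤ ez := Nat.floor_le (by linarith)
  have hzge : ez / 2 ≤ z := by
    have := Nat.lt_floor_add_one ez
    rw [← hz] at this
    linarith
  have hzE : z ^ E ≤ N := by
    have h1 : (z : ℝ) ^ E ≤ ez ^ E := pow_le_pow_left₀ (Nat.cast_nonneg z) hzle E
    have h2 : ez ^ E = N := by
      rw [hez, ← Real.rpow_natCast, ← Real.rpow_mul hN0.le]
      rw [one_div, inv_mul_cancel₀ hE0.ne', Real.rpow_one]
    rw [h2] at h1
    exact_mod_cast h1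
  have hwz : w ^ 20 ≤ z := by
    have h1 : (w : ℝ) ^ 20 ≤ ew ^ 20 := pow_le_pow_left₀ hw0.le hwle 20
    have h2 : ew ^ 20 = Real.exp (R / 2) := by
      rw [hew, ← Real.exp_nat_mul]
      congr 1
      push_cast
      ring
    have h3 : (w : ℝ) ^ 20 ≤ z := by linarith
    exact_mod_cast h3
  have hmain := hCO N K w z hN hw2 hw1600 hKN hzE hwz
  -- N^c ≤ z
  have hNc : (N : ℝ) ^ c ≤ z := by
    refine le_trans ?_ hzge
    have h1 : (N : ℝ) ^ c ≤ (N : ℝ) ^ (1 / (2 * E : ℝ)) :=
      Real.rpow_le_rpow_of_exponent_le (by linarith) hcE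
    refine h1.trans ?_
    rw [hez1, Real.rpow_def_of_pos hN0]
    have h2 : Real.log N * (1 / (2 * E)) + Real.log 2 ≤ Real.log N / E := by
      have h3 : Real.log N * (1 / (2 * E)) = Real.log N / E / 2 := by ring
      rw [h3]
      linarith
    have h4 := Real.exp_le_exp.2 h2
    rw [Real.exp_add, Real.exp_log (by norm_num)] at h4
    linarith
  have hsub : (Icc 1 N).filter (fun n => ((((Ioc (K / 2) K).filter (fun k => 2 * k < n ∧
      ∀ q : ℕ, q.Prime → q ∣ Nat.centralBinom k + Nat.nth Nat.Prime (n - k - 1) →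
        (N : ℝ) ^ c < q)).card : ℕ) : ℝ) < c * (K * (Real.log K / Real.log N)))
      ⊆ (Icc 1 N).filter (fun n => ((((Ioc (K / 2) K).filter (fun k => Good z n k)).card : ℕ) : ℝ)
      < c1 * (K * (Real.log K / Real.log N))) := by
    intro n hn
    rw [mem_filter] at hn ⊢
    refine ⟨hn.1, ?_⟩
    have h1 : (Ioc (K / 2) K).filter (fun k => Good z n k) ⊆ (Ioc (K / 2) K).filter (fun k => 2 * k < n ∧
      ∀ q : ℕ, q.Prime → q ∣ Nat.centralBinom k + Nat.nth Nat.Prime (n - k - 1) →
        (N : ℝ) ^ c < q) := by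
      intro k hk
      rw [mem_filter] at hk ⊢
      refine ⟨hk.1, hk.2.1, fun q hq hqd => ?_⟩
      have h2 := hk.2.2 q hq hqd
      have h3 : (z : ℝ) < q := by exact_mod_cast h2
      linarith
    have h2 : ((((Ioc (K / 2) K).filter (fun k => Good z n k)).card : ℕ) : ℝ) ≤
        ((((Ioc (K / 2) K).filter (fun k => 2 * k < n ∧
      ∀ q : ℕ, q.Prime → q ∣ Nat.centralBinom k + Nat.nth Nat.Prime (n - k - 1) →
        (N : ℝ) ^ c < q)).card : ℕ) : ℝ) := by exact_mod_cast card_le_card h1
    have h3 : c * (K * (Real.log K / Real.log N)) ≤ c1 * (K * (Real.log K / Real.log N)) :=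
      mul_le_mul_of_nonneg_right hcc1 (by positivity)
    linarith [hn.2]
  have hcard := card_le_card hsub
  refine le_trans (by exact_mod_cast hcard) (hmain.trans ?_)
  -- final
  have h1 : Real.log N ^ A = Real.exp (A * y) := by
    rw [hy, Real.exp_nat_mul, Real.exp_log (by linarith)]
  have h2 : 2 * C1 ≤ Real.exp B := by
    have h3 : Real.log (2 * C1) ≤ B := le_max_right _ _
    rwa [Real.log_le_iff_le_exp (by positivity)] at h3
  have h4 : 1 / (w : ℝ) ≤ 2 * Real.exp (-(R / 40)) := by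
    rw [Real.exp_neg, ← hew, ← div_eq_mul_inv, div_le_div_iff₀ hw0 (by linarith)]
    linarith
  calc C1 * (N * Real.log N ^ A / w) = N * (C1 * Real.exp (A * y) * (1 / w)) := by rw [h1]; ring
    _ ≤ N * (C1 * Real.exp (A * y) * (2 * Real.exp (-(R / 40)))) := by
        refine mul_le_mul_of_nonneg_left ?_ hN0.le
        exact mul_le_mul_of_nonneg_left h4 (by positivity)
    _ = N * ((2 * C1) * (Real.exp (A * y) * Real.exp (-(R / 40)))) := by ring
    _ ≤ N * (Real.exp B * (Real.exp (A * y) * Real.exp (-(R / 40)))) := by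
        refine mul_le_mul_of_nonneg_left ?_ hN0.le
        exact mul_le_mul_of_nonneg_right h2 (by positivity)
    _ = N * Real.exp (B + (A * y + -(R / 40))) := by rw [Real.exp_add, Real.exp_add]
    _ ≤ N * Real.exp (-(c * R)) := by
        refine mul_le_mul_of_nonneg_left ?_ hN0.le
        apply Real.exp_le_exp.2
        have h5 : (A + B) * y ≤ R / 80 := by
          have h6 : 80 * ((A + B) * y) ≤ s * y := by
            have h9 : s * y = 80 * ((A + B) * y) + 80 * y := by
              rw [hs]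
              ring
            linarith
          linarith
        have h7 : B ≤ B * y := le_mul_of_one_le_right hB0 hy1
        have h8 : c * R ≤ 1 / 80 * R := mul_le_mul_of_nonneg_right hc80 hR0
        have h9 : (A + B) * y = A * y + B * y := by ring
        linarith

end Pool.Agent.Helper48.AA
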