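import Mathlib
import Pool.Agent.Helper93.AA.RLB

/-!
# Project AA, packet RLA
-/

set_option autoImplicit false

open Finset Polynomial

namespace Pool.Agent.Helper48.AA

open Pool.Agent.Helper93.AA

theorem AB_ne {q s : ℕ} (hq : q.Prime) (hs : 1 ≤ s) (hsq : 2 * s < q) : A q s 0 - B q s 0 ≠ 0 := by
  have := Fact.mk hq
  have h2 : (2 : ZMod q) ≠ 0 := by
    intro h
    have h1 : ((2 : ℕ) : ZMod q) = 0 := by exact_mod_cast h
    have := Nat.le_of_dvd (by omega) ((ZMod.natCast_eq_zero_iff _ _).1 h1)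
    omega
  obtain ⟨x, hx⟩ : ∃ x : ZMod q, 2 * x = -1 := ⟨(-1) / 2, mul_div_cancel₀ _ h2⟩
  have hA : (A q s 0).eval x = 0 := by
    rw [evA]
    refine Finset.prod_eq_zero (mem_range.2 (by omega : 0 < s)) ?_
    push_cast
    linear_combination 2 * hx
  have hB : (B q s 0).eval x ≠ 0 := by
    rw [evB]
    refine Finset.prod_ne_zero_iff.2 (fun i hi => ?_)
    have hi' := mem_range.1 hi
    have := half hq (m := i) (by omega) x hx
    push_cast
    rw [add_zero]
    exact this
  intro h
  have h3 : (A q s 0 - B q s 0).eval x = 0 := by rw [h]; simp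
  rw [eval_sub, hA, zero_sub, neg_eq_zero] at h3
  exact hB h3

open scoped Classical in
theorem gRLA : StmtRLA := by
  intro q S len b hq hS hSq hlen hb
  have := Fact.mk hq
  have hb0 : (b : ZMod q) ≠ 0 := fun h => hb ((ZMod.natCast_eq_zero_iff _ _).1 h)
  set U : Finset ℕ := (range len).filter (fun a => Nat.centralBinom a ≡ b [MOD q]) with hU
  have hmem : ∀ a, a ∈ U ↔ a < len ∧ Nat.centralBinom a ≡ b [MOD q] := by
    intro a
    rw [hU, mem_filter, mem_range]
  have hcov : U ⊆ (U.filter (fun a => ∀ s, 1 ≤ s → s < S → a + s ∉ U)) ∪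
      ((Ico 1 S).biUnion (fun s => U.filter (fun a => a + s ∈ U))) := by
    intro a ha
    by_cases h : ∀ s, 1 ≤ s → s < S → a + s ∉ U
    · exact mem_union_left _ (mem_filter.2 ⟨ha, h⟩)
    · push Not at h
      obtain ⟨s, h1, h2, h3⟩ := h
      exact mem_union_right _ (mem_biUnion.2 ⟨s, mem_Ico.2 ⟨h1, h2⟩, mem_filter.2 ⟨ha, h3⟩⟩)
  have c1 : (U.filter (fun a => ∀ s, 1 ≤ s → s < S → a + s ∉ U)).card ≤ len / S + 1 := by
    rw [← card_range (len / S + 1)]
    refine card_le_card_of_injOn (fun a => a / S) ?_ ?_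
    · intro a ha
      have ha1 := (hmem a).1 (mem_filter.1 (mem_coe.1 ha)).1
      exact mem_coe.2 (mem_range.2 (Nat.lt_succ_of_le (Nat.div_le_div_right ha1.1.le)))
    · have aux : ∀ a b : ℕ, a ∈ U.filter (fun a => ∀ s, 1 ≤ s → s < S → a + s ∉ U) → b ∈ U → a / S = b / S →
          ¬ a < b := by
        intro a b ha hb hab hlt
        have h1 := (mem_filter.1 ha).2 (b - a) (by omega) (by
          have e1 := Nat.div_add_mod a S
          have e2 := Nat.div_add_mod b S
          have e3 := Nat.mod_lt b hS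
          rw [hab] at e1
          omega)
        apply h1
        rw [show a + (b - a) = b by omega]
        exact hb
      intro a ha b hb hab
      have ha' := mem_coe.1 ha
      have hb' := mem_coe.1 hb
      have h1 := aux a b ha' (mem_filter.1 hb').1 hab
      have h2 := aux b a hb' (mem_filter.1 ha').1 hab.symm
      omega
  have c2 : ∀ s ∈ Ico 1 S, (U.filter (fun a => a + s ∈ U)).card ≤ S := by
    intro s hs
    obtain ⟨hs1, hs2⟩ := mem_Ico.1 hs
    have hne := AB_ne hq hs1 (by omega)
    have h1 : ((U.filter (fun a => a + s ∈ U)).image (fun a : ℕ => (a : ZMod q))).card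
        ≤ (A q s 0 - B q s 0).natDegree := by
      apply card_le_degree_of_subset_roots
      intro y hy
      have hy' : y ∈ (U.filter (fun a => a + s ∈ U)).image (fun a : ℕ => (a : ZMod q)) := hy
      obtain ⟨a, ha, rfl⟩ := mem_image.1 hy'
      rw [mem_roots hne]
      have e1 := (ZMod.natCast_eq_natCast_iff _ _ _).2 ((hmem a).1 (mem_filter.1 ha).1).2
      have e2 := (ZMod.natCast_eq_natCast_iff _ _ _).2 ((hmem _).1 (mem_filter.1 ha).2).2
      have e3 := key q a s 0
      rw [add_zero, e1, e2] at e3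
      have e4 := mul_left_cancel₀ hb0 e3
      show (A q s 0 - B q s 0).eval (a : ZMod q) = 0
      rw [eval_sub, e4, sub_self]
    rw [card_image_of_injOn] at h1
    · have := (natDegree_sub_le (A q s 0) (B q s 0)).trans (max_le (degA _ _ _) (degB _ _ _))
      omega
    · intro a ha b hb hab
      have ha1 := ((hmem a).1 (mem_filter.1 (mem_coe.1 ha)).1).1
      have hb1 := ((hmem b).1 (mem_filter.1 (mem_coe.1 hb)).1).1
      have := (ZMod.natCast_eq_natCast_iff' _ _ _).1 hab
      have hq2 := hq.two_le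
      rwa [Nat.mod_eq_of_lt (by omega), Nat.mod_eq_of_lt (by omega)] at this
  have c3 := card_le_card hcov
  have c4 := card_union_le (U.filter (fun a => ∀ s, 1 ≤ s → s < S → a + s ∉ U))
    ((Ico 1 S).biUnion (fun s => U.filter (fun a => a + s ∈ U)))
  have c5 := card_biUnion_le_card_mul (Ico 1 S) (fun s => U.filter (fun a => a + s ∈ U)) S c2
  rw [Nat.card_Ico] at c5
  have c6 : (S - 1) * S ≤ S ^ 2 := by
    have : (S - 1) * S ≤ S * S := Nat.mul_le_mul_right _ (Nat.sub_le _ _)
    calc (S - 1) * S ≤ S * S := this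
      _ = S ^ 2 := by ring
  omega

end Pool.Agent.Helper48.AA
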